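import Mathlib

/-!
MP_4589a7_lc : realtime multitape Turing machines, the language, list machines.
-/

set_option autoImplicit false

namespace Pool.Agent.Helper38.RT

/-- head movement -/
inductive Mv
  | left
  | stay
  | right

/-- displacement of a head movement -/
def Mv.toInt : Mv → ℤ
  | .left => -1
  | .stay => 0
  | .right => 1

/-- A deterministic multitape Turing machine in realtime mode: `k` work tapes (two-way infinite,
one head each), finite tape alphabet `Γ`, finite set of states `Q`. At every step it reads the next
input symbol and the symbols under the `k` heads, changes state, writes on every tape and moves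
every head by at most one cell. -/
structure RTM (A : Type) where
  k : ℕ
  Γ : Type
  Q : Type
  finΓ : Finite Γ
  finQ : Finite Q
  blank : Γ
  start : Q
  acc : Q → Bool
  δ : Q → A → (Fin k → Γ) → Q × (Fin k → Γ × Mv)

/-- configuration -/
structure RTM.Cfg {A : Type} (M : RTM A) where
  q : M.Q
  pos : Fin M.k → ℤ
  tape : Fin M.k → ℤ → M.Γ

/-- initial configuration: blank tapes -/
def RTM.init {A : Type} (M : RTM A) : M.Cfg where
  q := M.start
  pos _ := 0
  tape _ _ := M.blank

/-- one step: the machine reads the input symbol `a` -/
def RTM.step {A : Type} (M : RTM A) (c : M.Cfg) (a : A) : M.Cfg :=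
  let r := M.δ c.q a (fun i => c.tape i (c.pos i))
  { q := r.1
    pos := fun i => c.pos i + (r.2 i).2.toInt
    tape := fun i => Function.update (c.tape i) (c.pos i) (r.2 i).1 }

/-- the answer after the last input symbol has been read (`|w|` steps) -/
def RTM.accepts {A : Type} (M : RTM A) (w : List A) : Prop :=
  M.acc (w.foldl M.step M.init).q = true

/-- the class REALTIME -/
def REALTIME {A : Type} (L : Set (List A)) : Prop := ∃ M : RTM A, ∀ w, w ∈ L ↔ M.accepts w

/-- input alphabet `{0,1,#}`: `some b` is a bit, `none` is `#` -/
abbrev Sym := Option Bool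

/-- the language `{v # u : u = u₁ v⁻¹ u₂}` -/
def Lang : Set (List Sym) :=
  {w | ∃ v u u₁ u₂ : List Bool, w = v.map some ++ none :: u.map some ∧ u = u₁ ++ v.reverse ++ u₂}

/-! ### list machines: finite control and finitely many stacks, `c` moves per input symbol -/

/-- one move: `f` sees the state and the tops of the stacks; it returns the new state and, for every
stack, the list which replaces its top -/
def lmove {S Γ N : Type} (f : S → (N → Option Γ) → S × (N → List Γ)) (x : S × (N → List Γ)) :
    S × (N → List Γ) :=
  let r := f x.1 (fun i => (x.2 i).head?)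
  (r.1, fun i => r.2 i ++ (x.2 i).tail)

structure LM (A : Type) where
  N : Type
  Γ : Type
  S : Type
  finN : Finite N
  finΓ : Finite Γ
  finS : Finite S
  c : ℕ
  start : S
  acc : S → Bool
  inp : A → S → (N → Option Γ) → S × (N → List Γ)
  mic : S → (N → Option Γ) → S × (N → List Γ)
  hinp : ∀ a s t i, ((inp a s t).2 i).length ≤ 2
  hmic : ∀ s t i, ((mic s t).2 i).length ≤ 2

/-- one input symbol: the arrival move, then `c` moves -/
def LM.step {A : Type} (M : LM A) (x : M.S × (M.N → List M.Γ)) (a : A) : M.S × (M.N → List M.Γ) :=
  (lmove M.mic)^[M.c] (lmove (M.inp a) x)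

def LM.run {A : Type} (M : LM A) (w : List A) : M.S × (M.N → List M.Γ) :=
  w.foldl M.step (M.start, fun _ => [])

/-- part COMPILE -/
def S_COMPILE : Prop := ∀ (A : Type) (M : LM A), REALTIME {w : List A | M.acc (M.run w).1 = true}

/-! ### words -/

/-- the text `t` is compatible with an occurrence of `p` at the start `s` -/
def Compat (p t : List Bool) (s : ℕ) : Prop :=
  ∀ j, s + j < t.length → j < p.length → t[s + j]? = p[j]?

/-- the least positive period of the prefix of length `q` of `p` (`0` for `q = 0`) -/
noncomputable def per (p : List Bool) (q : ℕ) : ℕ :=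
  if q = 0 then 0 else sInf {s | 0 < s ∧ Compat p (p.take q) s}

/-- symbols of the log -/
inductive Tk
  | sp
  | tk
  deriving DecidableEq, Fintype

/-- the log: entry `j` is `sp` followed by `per j - per (j-1)` ticks -/
noncomputable def TT (p : List Bool) : ℕ → List Tk
  | 0 => []
  | n + 1 => TT p n ++ Tk.sp :: List.replicate (per p (n + 1) - per p n) Tk.tk

/-! ### the machine -/

/-- modes; `ph = false` preprocessing of the pattern, `ph = true` reading of the text -/
inductive Md
  | rd
  | dead
  | done
  | idle (ph : Bool)
  | cmp (ph x : Bool)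
  | pact (ph : Bool)
  | wait (ph x : Bool)
  | rev0 (ph : Bool)
  | rev1 (ph x : Bool)
  | sh (ph x : Bool)
  | r1 (ph x : Bool)
  | r2 (ph x : Bool)
  | lda
  | ldb
  | ldc
  deriving DecidableEq, Fintype

/-- configuration of the machine, the head of each list is the top of the stack -/
structure Cf where
  md : Md
  role : Bool
  acc : Bool
  ML : List Bool
  MR : List Bool
  V2 : List Bool
  PL : List Tk
  PR : List Tk
  G : List Tk
  K : ℕ
  C : ℕ
  E : ℕ
  Z : ℕ
  TF : List Bool
  T0 : List Bool
  T1 : List Bool

def Cf.init : Cf where
  md := .rd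
  role := false
  acc := false
  ML := []
  MR := []
  V2 := []
  PL := []
  PR := []
  G := []
  K := 0
  C := 0
  E := 0
  Z := 0
  TF := []
  T0 := []
  T1 := []

/-- arrival of an input symbol -/
def arr (a : Sym) (x : Cf) : Cf :=
  match x.md, a with
  | .dead, _ => x
  | .rd, some b => { x with MR := b :: x.MR, V2 := b :: x.V2 }
  | .rd, none =>
    match x.V2 with
    | [] => { x with acc := true, md := .done }
    | _ :: r => { x with V2 := r, G := Tk.tk :: Tk.sp :: x.G.tail, md := .idle false }
  | _, none => { x with md := .dead, acc := false }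
  | _, some b =>
    if x.role then { x with T0 := b :: x.T0 } else { x with T1 := b :: x.T1 }

/-- action of the log head; `stay`: mode after a move, `dn`: mode when nothing is left, `rv`: mode
of the reversal of `G` -/
def pstep (stay dn rv : Md) (x : Cf) : Cf :=
  match x.PR with
  | Tk.tk :: r => { x with PR := r, PL := Tk.tk :: x.PL, C := x.C + 1, E := x.E + 1, md := stay }
  | Tk.sp :: r =>
    match x.K with
    | 0 => { x with md := dn }
    | k + 1 => { x with PR := r, PL := Tk.sp :: x.PL, K := k, md := stay }
  | [] =>
    match x.G with
    | [] => { x with md := dn }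
    | _ :: _ => { x with md := rv }

/-- reversal of `G` onto `PR` -/
def revstep (ret : Md) (x : Cf) : Cf :=
  match x.G with
  | [] => { x with md := ret }
  | g :: r => { x with G := r, PR := g :: x.PR }

/-- one move -/
def mic (x : Cf) : Cf :=
  match x.md with
  | .rd => x
  | .dead => x
  | .done => x
  | .idle false =>
    match x.V2 with
    | [] => { x with md := .lda }
    | b :: r => { x with V2 := r, G := Tk.sp :: x.G, md := .cmp false b }
  | .idle true =>
    match x.role, x.T0, x.T1, x.TF with
    | false, b :: r, _, _ => { x with T0 := r, TF := b :: x.TF }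
    | true, _, b :: r, _ => { x with T1 := r, TF := b :: x.TF }
    | false, [], _, b :: r => { x with TF := r, md := .cmp true b }
    | true, _, [], b :: r => { x with TF := r, md := .cmp true b }
    | false, [], _ :: _, [] => { x with role := true }
    | true, _ :: _, [], [] => { x with role := false }
    | false, [], [], [] => x
    | true, [], [], [] => x
  | .cmp ph b =>
    match x.MR with
    | y :: r =>
      if y = b then { x with MR := r, ML := y :: x.ML, K := x.K + 1, md := .pact ph }
      else
        match x.ML with
        | [] => { x with G := if ph then x.G else Tk.tk :: x.G, md := .idle ph }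
        | _ :: _ => { x with md := .wait ph b }
    | [] =>
      match x.ML with
      | [] => { x with G := if ph then x.G else Tk.tk :: x.G, md := .idle ph }
      | _ :: _ => { x with md := .wait ph b }
  | .pact ph =>
    pstep (.idle ph) (.idle ph) (.rev0 ph) { x with acc := x.acc || (ph && x.MR.isEmpty) }
  | .wait ph b => pstep (.wait ph b) (.sh ph b) (.rev1 ph b) x
  | .rev0 ph => revstep (.pact ph) x
  | .rev1 ph b => revstep (.wait ph b) x
  | .sh ph b =>
    match x.E with
    | 0 => { x with md := .r1 ph b }
    | e + 1 =>
      match x.PL with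
      | Tk.tk :: r => { x with PL := r, PR := Tk.tk :: x.PR, C := x.C - 1 }
      | Tk.sp :: r =>
        { x with
          PL := r
          PR := Tk.sp :: x.PR
          E := e
          ML := x.ML.tail
          MR := x.ML.head?.toList ++ x.MR
          G := if ph then x.G else Tk.tk :: x.G }
      | [] => { x with md := .r1 ph b }
  | .r1 ph b =>
    match x.C with
    | 0 => { x with md := .r2 ph b }
    | c + 1 => { x with C := c, Z := x.Z + 1, E := x.E + 1 }
  | .r2 ph b =>
    match x.Z with
    | 0 => { x with md := .cmp ph b }
    | z + 1 => { x with Z := z, C := x.C + 1 }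
  | .lda =>
    match x.PR with
    | y :: r => { x with PR := r, PL := y :: x.PL }
    | [] =>
      match x.G with
      | [] => { x with md := .ldc }
      | _ :: _ => { x with md := .ldb }
  | .ldb =>
    match x.G with
    | y :: r => { x with G := r, PR := y :: x.PR }
    | [] => { x with md := .lda }
  | .ldc =>
    if x.PL = [] ∧ x.C = 0 ∧ x.E = 0 ∧ x.K = 0 ∧ x.ML = [] then { x with md := .idle true }
    else
      { x with
        PL := x.PL.tail
        PR := x.PL.head?.toList ++ x.PR
        C := x.C - 1
        E := x.E - 1
        K := x.K - 1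
        ML := x.ML.tail
        MR := x.ML.head?.toList ++ x.MR }

/-- one input symbol -/
def cstep (x : Cf) (a : Sym) : Cf := mic^[100] (arr a x)

/-- configuration after the input `w` -/
def crun (w : List Sym) : Cf := w.foldl cstep Cf.init

/-- part ENC: the machine is a list machine -/
def S_ENC : Prop := ∃ M : LM Sym, ∀ w : List Sym, M.acc (M.run w).1 = (crun w).acc

/-- part WORDS: facts on periods and the log -/
structure S_WORDS : Prop where
  per_zero : ∀ p, per p 0 = 0
  per_pos : ∀ p q, 0 < q → 0 < per p q
  per_le : ∀ p q, per p q ≤ q
  per_mono : ∀ p q q', q ≤ q' → per p q ≤ per p q'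
  /-- the least period from the alignment data -/
  per_eq : ∀ (p : List Bool) (q j : ℕ), q < j → j ≤ p.length → Compat p (p.take j) (j - q) →
    (∀ s, 0 < s → s < j - q → ¬ Compat p (p.take j) s) → per p j = j - q
  /-- a shorter text is compatible with more starts -/
  mono : ∀ (p t : List Bool) (x : Bool) (s : ℕ), Compat p (t ++ [x]) s → Compat p t s
  /-- match -/
  mtch : ∀ (p t : List Bool) (x : Bool) (q : ℕ), q ≤ t.length → p[q]? = some x →
    Compat p t (t.length - q) → Compat p (t ++ [x]) (t.length - q)
  /-- mismatch -/
  mism : ∀ (p t : List Bool) (x : Bool) (q : ℕ), q ≤ t.length → q < p.length → p[q]? ≠ some x →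
    ¬ Compat p (t ++ [x]) (t.length - q)
  /-- shift: the alignment after the shift is good -/
  shift : ∀ (p t : List Bool) (q : ℕ), 0 < q → q ≤ t.length → q ≤ p.length →
    Compat p t (t.length - q) → Compat p t (t.length - (q - per p q))
  /-- shift: no alignment in between -/
  gap : ∀ (p t : List Bool) (q s : ℕ), 0 < q → q ≤ t.length → q ≤ p.length →
    Compat p t (t.length - q) → t.length - q < s → s < t.length - q + per p q → ¬ Compat p t s
  /-- an occurrence is compatible -/
  occ : ∀ (p u₁ u₂ : List Bool) (N : ℕ), Compat p ((u₁ ++ p ++ u₂).take N) u₁.length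
  /-- a full alignment is an occurrence -/
  full : ∀ (p t : List Bool), p.length ≤ t.length → Compat p t (t.length - p.length) →
    ∃ u₁, t = u₁ ++ p
  len : ∀ p n, (TT p n).length = n + per p n
  /-- position in the log -/
  pos : ∀ (p : List Bool) (n : ℕ) (r l₁ l₂ : List Tk), l₁ ++ l₂ = TT p n ++ r → l₁.count .sp < n →
    l₂ ≠ [] ∧ l₁.count .tk ≤ per p (l₁.count .sp) ∧
      (l₂.head? = some .sp → l₁.count .tk = per p (l₁.count .sp))

end Pool.Agent.Helper38.RT
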