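import Pool.Agent.Helper38.RT.Run

set_option autoImplicit false

namespace Pool.Agent.Helper38.RT

theorem pend_wt (x : Cf) : 15 * (pend x).length ≤ wt x := by
  unfold pend wt
  split <;> simp only [List.length_append, List.length_reverse] <;> omega

theorem J.low (W : S_WORDS) {p u t : List Bool} {ph rv : Bool} {x : Cf} {ev : Option Bool}
    {qt c : ℕ} (h : J p u ph rv x t ev qt (t ++ ev.toList) c) (ho : Occ p u) :
    p.length ≤ qt + ev.toList.length + (pend x).length := by
  obtain ⟨u₁, u₂, hu⟩ := ho
  have hlen := congrArg List.length hu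
  simp only [List.length_append] at hlen
  cases ph with
  | false =>
    have := (h.f rfl).2.2.2
    rw [this]
    omega
  | true =>
    have h1 := (h.g rfl).2
    have h2 := W.occ p u₁ u₂ (t ++ ev.toList).length
    rw [← hu, h1, ← List.append_assoc, List.take_left] at h2
    have h3 : ¬ (u₁.length < t.length - qt) := fun hlt => h.sem.no _ (Nat.zero_le _) hlt h2
    have h4 := congrArg List.length h1
    simp only [List.length_append] at h4
    omega

theorem low (W : S_WORDS) {p u : List Bool} {x : Cf} (h : Inv p u x) (ho : Occ p u) :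
    12 * p.length ≤ phi p x := by
  have hw := pend_wt x
  have hmi := h.mi
  have hlen : p.length ≤ u.length := by
    obtain ⟨u₁, u₂, hu⟩ := ho
    rw [hu]; simp; omega
  cases hx : x.md with
  | rd => simp [MI, hx] at hmi
  | dead => simp [MI, hx] at hmi
  | done => simp [MI, hx] at hmi
  | idle ph =>
    simp only [MI, hx] at hmi
    obtain ⟨t, hJ, -⟩ := hmi
    have := J.low W (ev := none) (by simpa using hJ) ho
    simp only [Option.toList_none, List.length_nil] at this
    simp only [phi, hx]
    omega
  | cmp ph b =>
    simp only [MI, hx] at hmi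
    obtain ⟨t, hJ, -⟩ := hmi
    have := J.low W (ev := some b) (by simpa using hJ) ho
    simp only [Option.toList_some, List.length_cons, List.length_nil] at this
    simp only [phi, hx]
    omega
  | pact ph =>
    simp only [MI, hx] at hmi
    obtain ⟨t, hJ, -⟩ := hmi
    have := J.low W (ev := none) (by simpa using hJ) ho
    simp only [Option.toList_none, List.length_nil] at this
    simp only [phi, hx]
    omega
  | wait ph b =>
    simp only [MI, hx] at hmi
    obtain ⟨t, hJ, -⟩ := hmi
    have := J.low W (ev := some b) (by simpa using hJ) ho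
    simp only [Option.toList_some, List.length_cons, List.length_nil] at this
    simp only [phi, hx, wp]
    omega
  | rev0 ph =>
    simp only [MI, hx] at hmi
    obtain ⟨t, hJ, -⟩ := hmi
    have := J.low W (ev := none) (by simpa using hJ) ho
    simp only [Option.toList_none, List.length_nil] at this
    simp only [phi, hx]
    omega
  | rev1 ph b =>
    simp only [MI, hx] at hmi
    obtain ⟨t, hJ, -⟩ := hmi
    have := J.low W (ev := some b) (by simpa using hJ) ho
    simp only [Option.toList_some, List.length_cons, List.length_nil] at this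
    simp only [phi, hx, wp]
    omega
  | sh ph b =>
    simp only [MI, hx] at hmi
    obtain ⟨t, hJ, -⟩ := hmi
    have := J.low W (ev := some b) (by simpa using hJ) ho
    simp only [Option.toList_some, List.length_cons, List.length_nil] at this
    simp only [phi, hx]
    omega
  | r1 ph b =>
    simp only [MI, hx] at hmi
    obtain ⟨t, hJ, -⟩ := hmi
    have := J.low W (ev := some b) (by simpa using hJ) ho
    simp only [Option.toList_some, List.length_cons, List.length_nil] at this
    simp only [phi, hx]
    omega
  | r2 ph b =>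
    simp only [MI, hx] at hmi
    obtain ⟨t, hJ, -⟩ := hmi
    have := J.low W (ev := some b) (by simpa using hJ) ho
    simp only [Option.toList_some, List.length_cons, List.length_nil] at this
    simp only [phi, hx]
    omega
  | lda =>
    simp only [MI, hx] at hmi
    obtain ⟨-, -, hp, -⟩ := hmi
    rw [hp] at hw
    simp only [phi, hx]
    omega
  | ldb =>
    simp only [MI, hx] at hmi
    obtain ⟨-, -, hp, -⟩ := hmi
    rw [hp] at hw
    simp only [phi, hx]
    omega
  | ldc =>
    simp only [MI, hx] at hmi
    obtain ⟨-, -, hp, -⟩ := hmi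
    rw [hp] at hw
    simp only [phi, hx]
    omega

/-- state after the text `u` -/
def St (p u : List Bool) (x : Cf) : Prop :=
  (Acd x ∧ Occ p u) ∨
    (Inv p u x ∧ (phi p x ≤ 12 * (p.length - 1) ∨ phi p x + 83 * u.length ≤ 44 * p.length))

theorem St.acc_iff (W : S_WORDS) {p u : List Bool} (hp0 : 0 < p.length) {x : Cf} (h : St p u x) :
    x.acc = true ↔ Occ p u := by
  rcases h with ⟨h1, h2⟩ | ⟨h1, h2⟩
  · exact ⟨fun _ => h2, fun _ => h1.acc⟩
  · refine ⟨fun h => absurd h (by rw [h1.acc]; simp), fun ho => ?_⟩
    exfalso
    have h3 := low W h1 ho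
    have hlen : p.length ≤ u.length := by
      obtain ⟨u₁, u₂, hu⟩ := ho
      rw [hu]; simp; omega
    omega

theorem Acd.arr {x : Cf} (h : Acd x) (b : Bool) : Acd (arr (some b) x) := by
  rw [pend_arr b h.rd h.dead]
  by_cases hr : x.role = true
  · rw [if_pos hr]; exact ⟨h.acc, h.rd, h.dead⟩
  · rw [if_neg hr]; exact ⟨h.acc, h.rd, h.dead⟩

theorem Acd.cstep {x : Cf} (h : Acd x) (b : Bool) : Acd (RT.cstep x (some b)) := by
  unfold RT.cstep
  exact (h.arr b).iter _

theorem Acd.run (w : List Bool) : ∀ {x : Cf}, Acd x → Acd ((w.map some).foldl RT.cstep x) := by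
  induction w with
  | nil => intro x h; exact h
  | cons b w ih =>
    intro x h
    rw [List.map_cons, List.foldl_cons]
    exact ih (h.cstep b)

theorem Occ.snoc {p u : List Bool} (h : Occ p u) (b : Bool) : Occ p (u ++ [b]) := by
  obtain ⟨u₁, u₂, rfl⟩ := h
  exact ⟨u₁, u₂ ++ [b], by simp⟩

theorem St.step (W : S_WORDS) {p u : List Bool} (hp0 : 0 < p.length) {x : Cf} (h : St p u x)
    (b : Bool) : St p (u ++ [b]) (cstep x (some b)) := by
  unfold cstep
  rcases h with ⟨h1, h2⟩ | ⟨h1, h2⟩
  · exact Or.inl ⟨(h1.arr b).iter _, h2.snoc b⟩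
  · obtain ⟨h3, h4⟩ := arr_inv b h1
    rcases loop W p (u ++ [b]) hp0 _ h3 100 with h5 | ⟨h5, h6⟩
    · exact Or.inl h5
    · refine Or.inr ⟨h5, ?_⟩
      rw [h4] at h6
      simp only [List.length_append, List.length_cons, List.length_nil]
      omega

/-- the state before the first step of the preprocessing -/
def c0 (y : Bool) (p : List Bool) : Cf :=
  { Cf.init with MR := y :: p, V2 := p, G := [Tk.tk, Tk.sp], md := .idle false }

theorem c0_inv (W : S_WORDS) (y : Bool) (p : List Bool) : Inv (y :: p) [] (c0 y p) := by
  have h1 := W.per_le (y :: p) 1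
  have h2 := W.per_pos (y :: p) 1 (by omega)
  have h3 : per (y :: p) 1 = 1 := by omega
  refine ⟨rfl, [y], ⟨?_, ?_, ?_, ⟨?_, ?_, ?_⟩, ?_, ?_, rfl, rfl⟩, rfl, rfl, le_rfl, ?_⟩
  · intro _
    exact ⟨le_rfl, rfl, rfl, rfl⟩
  · intro h; exact absurd h (by simp)
  · intro _
    simp [c0, Cf.init, h3]
  · simp [c0, Cf.init, bb]
  · exact compat_len _ _ (by simp [c0, Cf.init])
  · intro s h4 h5
    simp [c0, Cf.init, bb] at h4 h5
    omega
  · rfl
  · simp [tl, rr, nn, c0, Cf.init, TT, h3, W.per_zero]
  · simp [nn, c0, Cf.init]

theorem c0_phi (y : Bool) (p : List Bool) : phi (y :: p) (c0 y p) ≤ 44 * (y :: p).length := by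
  simp [phi, c0, Cf.init, wt, gg, ex]
  omega

theorem St.init (W : S_WORDS) (y : Bool) (p : List Bool) : St (y :: p) [] (mic^[100] (c0 y p)) := by
  rcases loop W (y :: p) [] (by simp) _ (c0_inv W y p) 100 with h5 | ⟨h5, h6⟩
  · exact Or.inl h5
  · refine Or.inr ⟨h5, ?_⟩
    have := c0_phi y p
    simp only [List.length_nil]
    omega

theorem St.run (W : S_WORDS) {p : List Bool} (hp0 : 0 < p.length) (w : List Bool) :
    ∀ {u : List Bool} {x : Cf}, St p u x → St p (u ++ w) ((w.map some).foldl cstep x) := by
  induction w with
  | nil => intro u x h; simpa using h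
  | cons b w ih =>
    intro u x h
    have := ih (h.step W hp0 b)
    simpa using this

/-! ### the other phases -/

theorem mic_rd {x : Cf} (h : x.md = .rd) : mic x = x := by
  simp only [mic, h]

theorem mic_dead {x : Cf} (h : x.md = .dead) : mic x = x := by
  simp only [mic, h]

theorem run_rd (v : List Bool) : ∀ l : List Bool,
    (v.map some).foldl cstep { Cf.init with MR := l, V2 := l } =
      { Cf.init with MR := v.reverse ++ l, V2 := v.reverse ++ l } := by
  induction v with
  | nil => intro l; rfl
  | cons b v ih =>
    intro l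
    have : cstep { Cf.init with MR := l, V2 := l } (some b) =
        { Cf.init with MR := b :: l, V2 := b :: l } := by
      unfold cstep
      exact Function.iterate_fixed (mic_rd rfl) 100
    rw [List.map_cons, List.foldl_cons, this, ih]
    simp

theorem run_dead (w : List Sym) : ∀ {x : Cf}, x.md = .dead → x.acc = false →
    (w.foldl cstep x).acc = false := by
  induction w with
  | nil => intro x _ h; exact h
  | cons a w ih =>
    intro x h1 h2
    have h3 : arr a x = x := by
      obtain ⟨md, role, acc, ML, MR, V2, PL, PR, G, K, C, E, Z, TF, T0, T1⟩ := x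
      dsimp only at h1
      subst h1
      cases a <;> rfl
    have : cstep x a = x := by
      unfold cstep
      rw [h3]
      exact Function.iterate_fixed (mic_dead h1) 100
    rw [List.foldl_cons, this]
    exact ih h1 h2

theorem arr_none {x : Cf} (h1 : x.md ≠ .rd) (h2 : x.md ≠ .dead) :
    (cstep x none).md = .dead ∧ (cstep x none).acc = false := by
  have h3 : arr none x = { x with md := .dead, acc := false } := by
    obtain ⟨md, role, acc, ML, MR, V2, PL, PR, G, K, C, E, Z, TF, T0, T1⟩ := x
    cases md <;> first
      | exact absurd rfl h1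
      | exact absurd rfl h2
      | rfl
  unfold cstep
  rw [h3, Function.iterate_fixed (mic_dead rfl) 100]
  exact ⟨rfl, rfl⟩

theorem St.live {p u : List Bool} {x : Cf} (h : St p u x) : x.md ≠ .rd ∧ x.md ≠ .dead := by
  rcases h with ⟨h1, -⟩ | ⟨h1, -⟩
  · exact ⟨h1.rd, h1.dead⟩
  · have := h1.mi
    constructor <;> intro h2 <;> simp [MI, h2] at this

theorem split_none (w : List Sym) :
    (∃ v : List Bool, w = v.map some) ∨ ∃ (v : List Bool) (w' : List Sym), w = v.map some ++ none :: w' := by
  induction w with
  | nil => exact Or.inl ⟨[], rfl⟩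
  | cons a w ih =>
    cases a with
    | none => exact Or.inr ⟨[], w, rfl⟩
    | some b =>
      rcases ih with ⟨v, rfl⟩ | ⟨v, w', rfl⟩
      · exact Or.inl ⟨b :: v, rfl⟩
      · exact Or.inr ⟨b :: v, w', rfl⟩

theorem map_some_inj {v v' : List Bool} {w w' : List Sym}
    (h : v.map some ++ none :: w = v'.map some ++ none :: w') : v = v' ∧ w = w' := by
  induction v generalizing v' with
  | nil =>
    cases v' with
    | nil => simpa using h
    | cons b v' => simp at h
  | cons a v ih =>
    cases v' with
    | nil => simp at h
    | cons b v' =>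
      simp only [List.map_cons, List.cons_append, List.cons.injEq, Option.some.injEq] at h
      obtain ⟨h1, h2⟩ := h
      obtain ⟨h3, h4⟩ := ih h2
      exact ⟨by rw [h1, h3], h4⟩

/-- state after `v #` -/
theorem run_hash (W : S_WORDS) (v : List Bool) :
    (v = [] ∧ Acd ((v.map some ++ [none]).foldl cstep Cf.init)) ∨
      (v ≠ [] ∧ St v.reverse [] ((v.map some ++ [none]).foldl cstep Cf.init)) := by
  have h1 := run_rd v []
  simp only [List.append_nil] at h1
  rw [List.foldl_append]
  have h2 : (v.map some).foldl cstep Cf.init = { Cf.init with MR := v.reverse, V2 := v.reverse } := h1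
  rw [h2]
  rcases hv : v.reverse with _ | ⟨y, p⟩
  · left
    have : v = [] := by simpa using hv
    refine ⟨this, ?_⟩
    have h3 : arr none { Cf.init with MR := [], V2 := [] } =
        { Cf.init with MR := [], V2 := [], acc := true, md := .done } := rfl
    have h4 : Acd (arr none { Cf.init with MR := [], V2 := [] }) := by
      rw [h3]; exact ⟨rfl, by simp, by simp⟩
    rw [List.foldl_cons, List.foldl_nil]
    unfold cstep
    exact h4.iter _
  · right
    refine ⟨by rintro rfl; simp at hv, ?_⟩
    have h3 : arr none { Cf.init with MR := y :: p, V2 := y :: p } = c0 y p := rfl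
    rw [List.foldl_cons, List.foldl_nil]
    unfold cstep
    rw [h3]
    exact St.init W y p

/-- correctness of the machine -/
theorem crun_iff (W : S_WORDS) (w : List Sym) : w ∈ Lang ↔ (crun w).acc = true := by
  unfold crun
  rcases split_none w with ⟨v, rfl⟩ | ⟨v, w', rfl⟩
  · have h1 := run_rd v []
    simp only [List.append_nil] at h1
    have h2 : (v.map some).foldl cstep Cf.init =
      { Cf.init with MR := v.reverse, V2 := v.reverse } := h1
    rw [h2]
    refine ⟨?_, fun h => absurd h (by simp [Cf.init])⟩
    rintro ⟨v', u, u₁, u₂, h3, -⟩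
    have : (none : Sym) ∈ v.map some := by rw [h3]; simp
    simp at this
  · have e1 : v.map some ++ none :: w' = (v.map some ++ [none]) ++ w' := by simp
    rw [e1, List.foldl_append, ← e1]
    have hmem : v.map some ++ none :: w' ∈ Lang ↔
        ∃ u : List Bool, w' = u.map some ∧ Occ v.reverse u := by
      constructor
      · rintro ⟨v', u, u₁, u₂, h3, h4⟩
        obtain ⟨h5, h6⟩ := map_some_inj h3
        subst h5
        exact ⟨u, h6, u₁, u₂, h4⟩
      · rintro ⟨u, h6, u₁, u₂, h4⟩
        exact ⟨v, u, u₁, u₂, by rw [h6], h4⟩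
    rw [hmem]
    rcases split_none w' with ⟨u, rfl⟩ | ⟨u, w'', rfl⟩
    · have hinj : (∃ u' : List Bool, u.map some = u'.map some ∧ Occ v.reverse u') ↔
          Occ v.reverse u := by
        constructor
        · rintro ⟨u', h1, h2⟩
          have := List.map_injective_iff.2 (Option.some_injective Bool) h1
          rw [this]; exact h2
        · intro h; exact ⟨u, rfl, h⟩
      rw [hinj]
      rcases run_hash W v with ⟨hv, h1⟩ | ⟨hv, h1⟩
      · subst hv
        refine ⟨fun _ => ?_, fun _ => ⟨[], u, by simp⟩⟩
        exact (Acd.run u h1).acc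
      · have hp0 : 0 < v.reverse.length := by
          rw [List.length_reverse]; exact List.length_pos_iff.2 hv
        have := (h1.run W hp0 u).acc_iff W hp0
        rw [this]
        simp
    · refine ⟨?_, fun h => ?_⟩
      · rintro ⟨u', h1, -⟩
        have : (none : Sym) ∈ u'.map some := by rw [← h1]; simp
        simp at this
      · exfalso
        have hlive : ∀ x : Cf, x.md ≠ .rd → x.md ≠ .dead →
            ((none :: w'').foldl cstep x).acc = false := by
          intro x h1 h2
          obtain ⟨h3, h4⟩ := arr_none h1 h2
          rw [List.foldl_cons]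
          exact run_dead w'' h3 h4
        rw [List.foldl_append] at h
        rcases run_hash W v with ⟨hv, h1⟩ | ⟨hv, h1⟩
        · have h2 := Acd.run u h1
          rw [hlive _ h2.rd h2.dead] at h
          simp at h
        · have hp0 : 0 < v.reverse.length := by
            rw [List.length_reverse]; exact List.length_pos_iff.2 hv
          have h2 := (h1.run W hp0 u).live
          rw [hlive _ h2.1 h2.2] at h
          simp at h

/-- main theorem, from the parts -/
theorem main (W : S_WORDS) (hE : S_ENC) (hC : S_COMPILE) : REALTIME Lang := by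
  obtain ⟨M, hM⟩ := hE
  have := hC Sym M
  have hset : {w : List Sym | M.acc (M.run w).1 = true} = Lang := by
    ext w
    rw [crun_iff W, ← hM]; exact Iff.rfl
  rw [hset] at this
  exact this

end Pool.Agent.Helper38.RT
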