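import Pool.Agent.Helper38.RT.Defs

set_option autoImplicit false

namespace Pool.Agent.Helper38.RT

/-- text not yet read by the matcher -/
def pend (x : Cf) : List Bool :=
  if x.role then x.T1.reverse ++ (x.TF ++ x.T0.reverse) else x.T0.reverse ++ (x.TF ++ x.T1.reverse)

/-- its weight -/
def wt (x : Cf) : ℕ :=
  15 * x.TF.length +
    (if x.role then 17 * x.T0.length + 16 * x.T1.length else 16 * x.T0.length + 17 * x.T1.length)

def bb (ph : Bool) : ℕ := if ph then 0 else 1

def nn (ph : Bool) (p t : List Bool) : ℕ := if ph then p.length else t.length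

noncomputable def rr (ph : Bool) (p t : List Bool) (ev : Option Bool) (q : ℕ) : List Tk :=
  if ph then [] else
    match ev with
    | none => []
    | some _ => Tk.sp :: List.replicate (t.length - q - per p t.length) Tk.tk

structure Sem (p t t' : List Bool) (b0 q : ℕ) : Prop where
  le : q + b0 ≤ t.length
  co : Compat p t (t.length - q)
  no : ∀ s, b0 ≤ s → s < t.length - q → ¬ Compat p t' s

def tl (rv : Bool) (x : Cf) : List Tk :=
  match rv with
  | true => x.G.reverse ++ x.PR
  | false => x.PR ++ x.G.reverse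

structure J (p u : List Bool) (ph rv : Bool) (x : Cf) (t : List Bool) (ev : Option Bool)
    (qt : ℕ) (t' : List Bool) (c : ℕ) : Prop where
  f : ph = false → 1 ≤ t.length ∧ t = p.take t.length ∧ p.drop t.length = ev.toList ++ x.V2 ∧
    pend x = u
  g : ph = true → x.G = [] ∧ u = t ++ (ev.toList ++ pend x)
  pe : ph = false → per p t.length + x.ML.length ≤ t.length
  sem : Sem p t t' (bb ph) qt
  hm : x.ML.reverse ++ x.MR = p
  hl : x.PL.reverse ++ tl rv x = TT p (nn ph p t) ++ rr ph p t ev x.ML.length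
  hs : x.PL.count .sp + x.K = x.ML.length
  hc : x.PL.count .tk = c

/-- extra potential of the preprocessing, without the stack `G` -/
def ex (p : List Bool) (ph : Bool) (x : Cf) : ℕ :=
  if ph then 0 else 18 * x.V2.length + 16 * p.length + 4

/-- the load -/
def xx (x : Cf) : ℕ := x.PL.length + x.C + x.E + x.K + x.ML.length

def gg (ph : Bool) (x : Cf) : ℕ := if ph then 0 else 3 * x.G.length

noncomputable def wp (p : List Bool) (x : Cf) : ℕ :=
  12 * (x.ML.length - per p x.ML.length) + (x.K + (per p x.ML.length - x.C)) +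
    5 * per p x.ML.length + per p (x.ML.length - per p x.ML.length) + 18

/-- potential -/
noncomputable def phi (p : List Bool) (x : Cf) : ℕ :=
  wt x +
    match x.md with
    | .rd => 0
    | .dead => 0
    | .done => 0
    | .idle ph => 12 * x.ML.length + gg ph x + ex p ph x
    | .cmp ph _ => 12 * x.ML.length + 14 + gg ph x + ex p ph x
    | .pact ph => 12 * x.ML.length + 1 + gg ph x + ex p ph x
    | .wait ph _ => wp p x + gg ph x + ex p ph x
    | .rev0 ph => 12 * x.ML.length + 2 + x.G.length + ex p ph x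
    | .rev1 ph _ => wp p x + 1 + x.G.length + ex p ph x
    | .sh ph _ => 12 * (x.ML.length - x.E) + 4 * x.E + x.C + per p (x.ML.length - x.E) + 17 +
        gg ph x + ex p ph x
    | .r1 ph _ => 12 * x.ML.length + 16 + 2 * x.C + x.Z + gg ph x + ex p ph x
    | .r2 ph _ => 12 * x.ML.length + 15 + x.Z + gg ph x + ex p ph x
    | .lda => 2 * x.PR.length + 6 * x.G.length + xx x + 3
    | .ldb => 3 * x.G.length + 2 * x.PR.length + xx x + 4
    | .ldc => xx x + 1

/-- the invariant of the mode -/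
def MI (p u : List Bool) (x : Cf) : Prop :=
  match x.md with
  | .rd => False
  | .dead => False
  | .done => False
  | .idle ph => ∃ t, J p u ph false x t none x.ML.length t x.C ∧ x.E = x.C ∧ x.Z = 0 ∧
      x.K ≤ x.C ∧ x.ML.length < nn ph p t
  | .cmp ph b => ∃ t, J p u ph false x t (some b) x.ML.length (t ++ [b]) x.C ∧ x.E = x.C ∧
      x.Z = 0 ∧ x.K ≤ x.C ∧ x.ML.length < nn ph p t
  | .pact ph => ∃ t, J p u ph false x t none x.ML.length t x.C ∧ x.E = x.C ∧ x.Z = 0 ∧
      x.K ≤ x.C + 1 ∧ 1 ≤ x.K ∧ x.ML.length ≤ nn ph p t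
  | .wait ph b => ∃ t, J p u ph false x t (some b) (x.ML.length - per p x.ML.length) (t ++ [b]) x.C ∧
      x.E = x.C ∧ x.Z = 0 ∧ 0 < x.ML.length ∧ x.ML.length < nn ph p t
  | .rev0 ph => ∃ t, J p u ph true x t none x.ML.length t x.C ∧ x.E = x.C ∧ x.Z = 0 ∧
      x.K ≤ x.C + 1 ∧ 1 ≤ x.K ∧ x.ML.length ≤ nn ph p t
  | .rev1 ph b => ∃ t, J p u ph true x t (some b) (x.ML.length - per p x.ML.length) (t ++ [b]) x.C ∧
      x.E = x.C ∧ x.Z = 0 ∧ 0 < x.ML.length ∧ x.ML.length < nn ph p t
  | .sh ph b => ∃ t, J p u ph false x t (some b) (x.ML.length - x.E) (t ++ [b]) x.C ∧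
      x.Z = 0 ∧ x.K = 0 ∧ x.E ≤ x.ML.length ∧ x.ML.length < nn ph p t ∧
      (x.E = 0 → x.PR.head? = some .sp)
  | .r1 ph b => ∃ t, J p u ph false x t (some b) x.ML.length (t ++ [b]) (x.C + x.Z) ∧
      x.K = 0 ∧ x.E = x.Z ∧ x.C + x.Z = per p x.ML.length ∧ x.ML.length < nn ph p t
  | .r2 ph b => ∃ t, J p u ph false x t (some b) x.ML.length (t ++ [b]) (x.C + x.Z) ∧
      x.K = 0 ∧ x.E = x.C + x.Z ∧ x.C + x.Z = per p x.ML.length ∧ x.ML.length < nn ph p t
  | .lda => x.ML.reverse ++ x.MR = p ∧ x.PL.reverse ++ tl false x = TT p p.length ∧ pend x = u ∧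
      x.Z = 0
  | .ldb => x.ML.reverse ++ x.MR = p ∧ x.PL.reverse ++ tl true x = TT p p.length ∧ pend x = u ∧
      x.Z = 0
  | .ldc => x.ML.reverse ++ x.MR = p ∧ x.PL.reverse ++ x.PR = TT p p.length ∧ pend x = u ∧
      x.Z = 0 ∧ x.G = []

structure Inv (p u : List Bool) (x : Cf) : Prop where
  acc : x.acc = false
  mi : MI p u x

/-- occurrence of `p` -/
def Occ (p u : List Bool) : Prop := ∃ u₁ u₂, u = u₁ ++ p ++ u₂

/-- accepted for good (until the next `#`) -/
structure Acd (x : Cf) : Prop where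
  acc : x.acc = true
  rd : x.md ≠ .rd
  dead : x.md ≠ .dead

/-- outcome of one move -/
def Good (p u : List Bool) (x y : Cf) : Prop :=
  (Acd y ∧ Occ p u) ∨ (Inv p u y ∧ (phi p y + 1 ≤ phi p x ∨ phi p y ≤ 12 * (p.length - 1)))

end Pool.Agent.Helper38.RT
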