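import Pool.Agent.Helper38.RT.Steps4

set_option autoImplicit false

namespace Pool.Agent.Helper38.RT

theorem stp (W : S_WORDS) (p u : List Bool) (hp0 : 0 < p.length) (x : Cf) (h : Inv p u x) :
    Good p u x (mic x) := by
  cases hx : x.md with
  | rd => have := h.mi; simp [MI, hx] at this
  | dead => have := h.mi; simp [MI, hx] at this
  | done => have := h.mi; simp [MI, hx] at this
  | idle ph =>
    cases ph with
    | false => exact stp_idle_false W p u x hx h
    | true => exact stp_idle_true W p u x hx h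
  | cmp ph b => exact stp_cmp W p u ph x hx h
  | pact ph => exact stp_pact W p u ph x hx h
  | wait ph b => exact stp_wait W p u ph x hx h
  | rev0 ph => exact stp_rev0 p u ph x hx h
  | rev1 ph b => exact stp_rev1 p u ph x hx h
  | sh ph b => exact stp_sh W p u ph x hx h
  | r1 ph b => exact stp_r1 p u ph x hx h
  | r2 ph b => exact stp_r2 p u ph x hx h
  | lda => exact stp_lda p u x hx h
  | ldb => exact stp_ldb p u x hx h
  | ldc => exact stp_ldc p u hp0 x hx h

theorem Acd.mic {x : Cf} (h : Acd x) : Acd (mic x) := by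
  obtain ⟨md, role, acc, ML, MR, V2, PL, PR, G, K, C, E, Z, TF, T0, T1⟩ := x
  obtain ⟨h1, h2, h3⟩ := h
  dsimp only at h1 h2 h3
  subst h1
  cases md with
  | rd => exact absurd rfl h2
  | dead => exact absurd rfl h3
  | done => exact ⟨rfl, h2, h3⟩
  | idle ph =>
    cases ph with
    | false => rcases V2 with _ | ⟨b, V2⟩ <;> exact ⟨rfl, by simp [RT.mic], by simp [RT.mic]⟩
    | true =>
      cases role <;> rcases T0 with _ | ⟨b, T0⟩ <;> rcases T1 with _ | ⟨c, T1⟩ <;>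
        rcases TF with _ | ⟨d, TF⟩ <;> exact ⟨rfl, by simp [RT.mic], by simp [RT.mic]⟩
  | cmp ph b =>
    rcases MR with _ | ⟨y, MR⟩
    · rcases ML with _ | ⟨a, ML⟩ <;> exact ⟨rfl, by simp [RT.mic], by simp [RT.mic]⟩
    · by_cases hy : y = b <;> rcases ML with _ | ⟨a, ML⟩ <;>
        exact ⟨by simp [RT.mic, hy], by simp [RT.mic, hy], by simp [RT.mic, hy]⟩
  | pact ph =>
    rcases PR with _ | ⟨y, PR⟩
    · rcases G with _ | ⟨g, G⟩ <;>
        exact ⟨by simp [RT.mic, pstep], by simp [RT.mic, pstep], by simp [RT.mic, pstep]⟩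
    · cases y <;> cases K <;>
        exact ⟨by simp [RT.mic, pstep], by simp [RT.mic, pstep], by simp [RT.mic, pstep]⟩
  | wait ph b =>
    rcases PR with _ | ⟨y, PR⟩
    · rcases G with _ | ⟨g, G⟩ <;>
        exact ⟨by simp [RT.mic, pstep], by simp [RT.mic, pstep], by simp [RT.mic, pstep]⟩
    · cases y <;> cases K <;>
        exact ⟨by simp [RT.mic, pstep], by simp [RT.mic, pstep], by simp [RT.mic, pstep]⟩
  | rev0 ph =>
    rcases G with _ | ⟨g, G⟩ <;>
      exact ⟨by simp [RT.mic, revstep], by simp [RT.mic, revstep], by simp [RT.mic, revstep]⟩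
  | rev1 ph b =>
    rcases G with _ | ⟨g, G⟩ <;>
      exact ⟨by simp [RT.mic, revstep], by simp [RT.mic, revstep], by simp [RT.mic, revstep]⟩
  | sh ph b =>
    rcases E with _ | E
    · exact ⟨by simp [RT.mic], by simp [RT.mic], by simp [RT.mic]⟩
    · rcases PL with _ | ⟨y, PL⟩
      · exact ⟨by simp [RT.mic], by simp [RT.mic], by simp [RT.mic]⟩
      · cases y <;> exact ⟨by simp [RT.mic], by simp [RT.mic], by simp [RT.mic]⟩
  | r1 ph b => cases C <;> exact ⟨by simp [RT.mic], by simp [RT.mic], by simp [RT.mic]⟩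
  | r2 ph b => cases Z <;> exact ⟨by simp [RT.mic], by simp [RT.mic], by simp [RT.mic]⟩
  | lda =>
    rcases PR with _ | ⟨y, PR⟩
    · rcases G with _ | ⟨g, G⟩ <;> exact ⟨by simp [RT.mic], by simp [RT.mic], by simp [RT.mic]⟩
    · exact ⟨by simp [RT.mic], by simp [RT.mic], by simp [RT.mic]⟩
  | ldb =>
    rcases G with _ | ⟨g, G⟩ <;> exact ⟨by simp [RT.mic], by simp [RT.mic], by simp [RT.mic]⟩
  | ldc =>
    by_cases hc : PL = [] ∧ C = 0 ∧ E = 0 ∧ K = 0 ∧ ML = []
    · simp only [RT.mic, if_pos hc]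
      exact ⟨rfl, by simp, by simp⟩
    · simp only [RT.mic, if_neg hc]
      exact ⟨rfl, by simp, by simp⟩

theorem Acd.iter {x : Cf} (h : Acd x) (k : ℕ) : Acd (RT.mic^[k] x) := by
  induction k with
  | zero => exact h
  | succ k ih =>
    rw [Function.iterate_succ_apply']
    exact ih.mic

theorem loop (W : S_WORDS) (p u : List Bool) (hp0 : 0 < p.length) (x : Cf) (h : Inv p u x)
    (k : ℕ) : (Acd (mic^[k] x) ∧ Occ p u) ∨
      (Inv p u (mic^[k] x) ∧
        (phi p (mic^[k] x) + k ≤ phi p x ∨ phi p (mic^[k] x) ≤ 12 * (p.length - 1))) := by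
  induction k with
  | zero => exact Or.inr ⟨h, Or.inl le_rfl⟩
  | succ k ih =>
    rw [Function.iterate_succ_apply']
    rcases ih with ⟨h1, h2⟩ | ⟨h1, h2⟩
    · exact Or.inl ⟨h1.mic, h2⟩
    · rcases stp W p u hp0 _ h1 with h3 | ⟨h3, h4⟩
      · exact Or.inl h3
      · refine Or.inr ⟨h3, ?_⟩
        omega

theorem pend_arr {x : Cf} (b : Bool) (h1 : x.md ≠ .rd) (h2 : x.md ≠ .dead) :
    arr (some b) x = if x.role then { x with T0 := b :: x.T0 } else { x with T1 := b :: x.T1 } := by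
  obtain ⟨md, role, acc, ML, MR, V2, PL, PR, G, K, C, E, Z, TF, T0, T1⟩ := x
  cases md <;> first
    | exact absurd rfl h1
    | exact absurd rfl h2
    | rfl

theorem J.arr {p u t t' : List Bool} {ph rv : Bool} {x y : Cf} {ev : Option Bool} {b : Bool}
    {qt c : ℕ} (h : J p u ph rv x t ev qt t' c) (h1 : y.ML = x.ML) (h2 : y.MR = x.MR)
    (h3 : y.PL = x.PL) (h4 : y.PR = x.PR) (h5 : y.G = x.G) (h6 : y.K = x.K)
    (h7 : pend y = pend x ++ [b]) (h8 : y.V2 = x.V2) :
    J p (u ++ [b]) ph rv y t ev qt t' c := by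
  refine ⟨?_, ?_, ?_, h.sem, ?_, ?_, ?_, ?_⟩
  · intro hph
    obtain ⟨f1, f2, f3, f4⟩ := h.f hph
    rw [h8, h7, f4]
    exact ⟨f1, f2, f3, rfl⟩
  · intro hph
    obtain ⟨g1, g2⟩ := h.g hph
    rw [h5, h7]
    refine ⟨g1, ?_⟩
    rw [g2]
    simp
  · rw [h1]; exact h.pe
  · rw [h1, h2]; exact h.hm
  · have : tl rv y = tl rv x := by simp only [tl, h4, h5]
    rw [h3, this, h1]; exact h.hl
  · rw [h3, h6, h1]; exact h.hs
  · rw [h3]; exact h.hc

theorem MI.arr {p u : List Bool} {x y : Cf} {b : Bool}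
    (h : MI p u x) (hmd : y.md = x.md) (h1 : y.ML = x.ML) (h2 : y.MR = x.MR)
    (h3 : y.PL = x.PL) (h4 : y.PR = x.PR) (h5 : y.G = x.G) (h6 : y.K = x.K)
    (h7 : pend y = pend x ++ [b]) (h8 : y.V2 = x.V2) (h9 : y.C = x.C) (h10 : y.E = x.E)
    (h11 : y.Z = x.Z) : MI p (u ++ [b]) y := by
  have htl : ∀ rv, tl rv y = tl rv x := fun rv => by simp only [tl, h4, h5]
  unfold MI at h ⊢
  rw [hmd]
  split <;> rename_i hm <;> rw [hm] at h <;> dsimp only at h
  case h_4 | h_5 | h_6 | h_7 | h_8 | h_9 | h_10 | h_11 | h_12 =>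
    obtain ⟨t, hJ, hr⟩ := h
    refine ⟨t, ?_, by simpa only [h1, h2, h3, h4, h5, h6, h8, h9, h10, h11] using hr⟩
    have := hJ.arr (b := b) h1 h2 h3 h4 h5 h6 h7 h8
    simpa only [h1, h9, h10, h11] using this
  case h_13 | h_14 =>
    obtain ⟨g1, g2, g3, g4⟩ := h
    exact ⟨by rw [h1, h2]; exact g1, by rw [h3, htl]; exact g2, by rw [h7, g3], by rw [h11]; exact g4⟩
  case h_15 =>
    obtain ⟨g1, g2, g3, g4, g5⟩ := h
    exact ⟨by rw [h1, h2]; exact g1, by rw [h3, h4]; exact g2, by rw [h7, g3],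
      by rw [h11]; exact g4, by rw [h5]; exact g5⟩

theorem phi_arr {p : List Bool} {x y : Cf} 
    (hmd : y.md = x.md) (h1 : y.ML = x.ML) 
    (h3 : y.PL = x.PL) (h4 : y.PR = x.PR) (h5 : y.G = x.G) (h6 : y.K = x.K)
    (h8 : y.V2 = x.V2) (h9 : y.C = x.C) (h10 : y.E = x.E)
    (h11 : y.Z = x.Z) (hw : wt y = wt x + 17) : phi p y = phi p x + 17 := by
  have e1 : ∀ ph, gg ph y = gg ph x := fun ph => by simp only [gg, h5]
  have e2 : ∀ ph, ex p ph y = ex p ph x := fun ph => by simp only [ex, h8]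
  have e3 : xx y = xx x := by simp only [xx, h1, h3, h6, h9, h10]
  have e4 : wp p y = wp p x := by simp only [wp, h1, h6, h9]
  unfold phi
  rw [hw, hmd]
  simp only [e1, e2, e3, e4, h1, h4, h5, h9, h10, h11]
  omega

theorem arr_inv {p u : List Bool} {x : Cf} (b : Bool) (h : Inv p u x) :
    Inv p (u ++ [b]) (arr (some b) x) ∧ phi p (arr (some b) x) = phi p x + 17 := by
  have h1 : x.md ≠ .rd := by
    intro h1; have := h.mi; simp [MI, h1] at this
  have h2 : x.md ≠ .dead := by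
    intro h1; have := h.mi; simp [MI, h1] at this
  rw [pend_arr b h1 h2]
  by_cases hr : x.role = true
  · rw [if_pos hr]
    refine ⟨⟨h.acc, h.mi.arr rfl rfl rfl rfl rfl rfl rfl ?_ rfl rfl rfl rfl⟩,
      phi_arr rfl rfl rfl rfl rfl rfl rfl rfl rfl rfl ?_⟩
    · simp [pend, hr]
    · simp [wt, hr]; omega
  · rw [if_neg hr]
    refine ⟨⟨h.acc, h.mi.arr rfl rfl rfl rfl rfl rfl rfl ?_ rfl rfl rfl rfl⟩,
      phi_arr rfl rfl rfl rfl rfl rfl rfl rfl rfl rfl ?_⟩
    · simp [pend, hr]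
    · simp [wt, hr]; omega

end Pool.Agent.Helper38.RT
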