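import Pool.Agent.Helper38.RT.Inv

set_option autoImplicit false

namespace Pool.Agent.Helper38.RT

variable {p u t t' : List Bool} {ph rv : Bool} {x : Cf} {ev : Option Bool} {qt c : ℕ}

theorem J.len (h : J p u ph rv x t ev qt t' c) : x.ML.length ≤ p.length := by
  rw [← h.hm]; simp

theorem J.tlen (h : J p u ph rv x t ev qt t' c) (hph : ph = false) : t.length ≤ p.length := by
  have := congrArg List.length (h.f hph).2.1
  rw [List.length_take] at this
  omega

theorem J.nnlen (h : J p u ph rv x t ev qt t' c) : nn ph p t ≤ p.length := by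
  unfold nn
  cases ph with
  | true => simp
  | false => simpa using h.tlen rfl

theorem J.pos (W : S_WORDS) (h : J p u ph false x t ev qt t' c)
    (hn : x.PL.count .sp < nn ph p t) :
    tl false x ≠ [] ∧ c ≤ per p (x.PL.count .sp) ∧
      ((tl false x).head? = some .sp → c = per p (x.PL.count .sp)) := by
  have := W.pos p (nn ph p t) (rr ph p t ev x.ML.length) x.PL.reverse (tl false x) h.hl
    (by simpa using hn)
  simpa [h.hc] using this

theorem J.cle (W : S_WORDS) (h : J p u ph false x t ev qt t' c)
    (hn : x.PL.count .sp < nn ph p t) : c ≤ per p x.ML.length :=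
  (h.pos W hn).2.1.trans (W.per_mono _ _ _ (by have := h.hs; omega))

/-- the least period of the text of the preprocessing, at rest -/
theorem per_of_sem (W : S_WORDS) {q : ℕ} (hs : Sem p t t 1 q) (ht : t = p.take t.length)
    (hl : t.length ≤ p.length) : per p t.length = t.length - q := by
  have h1 := hs.le
  refine W.per_eq p q t.length (by omega) hl ?_ ?_
  · rw [← ht]; exact hs.co
  · intro s h0 h2
    rw [← ht]; exact hs.no s h0 h2

theorem compat_len (p t : List Bool) {s : ℕ} (h : t.length ≤ s) : Compat p t s := by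
  intro j hj; omega

theorem stp_r1 {b : Bool} (p u : List Bool) (ph : Bool) (x : Cf) (hx : x.md = .r1 ph b)
    (h : Inv p u x) : Good p u x (mic x) := by
  obtain ⟨md, role, acc, ML, MR, V2, PL, PR, G, K, C, E, Z, TF, T0, T1⟩ := x
  subst hx
  obtain ⟨ha, t, hJ, hK, hE, hC, hn⟩ := h
  dsimp only at ha hK hE hC hn hJ
  subst ha
  have hc := hJ.hc
  dsimp only at hc
  rcases C with _ | C
  · change Good p u _ ⟨.r2 ph b, role, false, ML, MR, V2, PL, PR, G, K, 0, E, Z, TF, T0, T1⟩
    refine Or.inr ⟨⟨rfl, t, ⟨hJ.f, hJ.g, hJ.pe, hJ.sem, hJ.hm, hJ.hl, hJ.hs, hJ.hc⟩, hK, ?_, hC, hn⟩,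
      Or.inl ?_⟩
    · dsimp only; omega
    · simp only [phi, wt, gg, ex]; omega
  · change Good p u _ ⟨.r1 ph b, role, false, ML, MR, V2, PL, PR, G, K, C, E + 1, Z + 1, TF, T0, T1⟩
    refine Or.inr ⟨⟨rfl, t, ⟨hJ.f, hJ.g, hJ.pe, hJ.sem, hJ.hm, hJ.hl, hJ.hs, ?_⟩, hK, ?_, ?_, hn⟩,
      Or.inl ?_⟩
    · dsimp only; omega
    · dsimp only; omega
    · dsimp only; omega
    · simp only [phi, wt, gg, ex]; omega

theorem stp_r2 {b : Bool} (p u : List Bool) (ph : Bool) (x : Cf) (hx : x.md = .r2 ph b)
    (h : Inv p u x) : Good p u x (mic x) := by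
  obtain ⟨md, role, acc, ML, MR, V2, PL, PR, G, K, C, E, Z, TF, T0, T1⟩ := x
  subst hx
  obtain ⟨ha, t, hJ, hK, hE, hC, hn⟩ := h
  dsimp only at ha hK hE hC hn hJ
  subst ha
  have hc := hJ.hc
  dsimp only at hc
  rcases Z with _ | Z
  · change Good p u _ ⟨.cmp ph b, role, false, ML, MR, V2, PL, PR, G, K, C, E, 0, TF, T0, T1⟩
    refine Or.inr ⟨⟨rfl, t, ⟨hJ.f, hJ.g, hJ.pe, hJ.sem, hJ.hm, hJ.hl, hJ.hs, hJ.hc⟩, ?_, rfl, ?_, hn⟩,
      Or.inl ?_⟩
    · dsimp only; omega
    · dsimp only; omega
    · simp only [phi, wt, gg, ex]; omega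
  · change Good p u _ ⟨.r2 ph b, role, false, ML, MR, V2, PL, PR, G, K, C + 1, E, Z, TF, T0, T1⟩
    refine Or.inr ⟨⟨rfl, t, ⟨hJ.f, hJ.g, hJ.pe, hJ.sem, hJ.hm, hJ.hl, hJ.hs, ?_⟩, hK, ?_, ?_, hn⟩,
      Or.inl ?_⟩
    · dsimp only; omega
    · dsimp only; omega
    · dsimp only; omega
    · simp only [phi, wt, gg, ex]; omega

theorem stp_sh (W : S_WORDS) {b : Bool} (p u : List Bool) (ph : Bool) (x : Cf)
    (hx : x.md = .sh ph b) (h : Inv p u x) : Good p u x (mic x) := by
  obtain ⟨md, role, acc, ML, MR, V2, PL, PR, G, K, C, E, Z, TF, T0, T1⟩ := x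
  subst hx
  obtain ⟨ha, t, hJ, hZ, hK, hE, hn, hd⟩ := h
  dsimp only at ha hZ hK hE hn hd hJ
  subst ha hZ hK
  have hc := hJ.hc
  have hs := hJ.hs
  have hpos := hJ.pos W (by dsimp only at hs ⊢; omega)
  dsimp only at hc hs hpos
  rcases E with _ | E
  · have hd := hd rfl
    have h3 := hpos.2.2 (by
      rcases PR with _ | ⟨y, PR⟩
      · simp at hd
      · simpa [tl] using hd)
    change Good p u _ ⟨.r1 ph b, role, false, ML, MR, V2, PL, PR, G, 0, C, 0, 0, TF, T0, T1⟩
    rw [show List.count Tk.sp PL = ML.length by omega] at h3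
    refine Or.inr ⟨⟨rfl, t, ⟨hJ.f, hJ.g, hJ.pe, ?_, hJ.hm, hJ.hl, hJ.hs, hJ.hc⟩, rfl, rfl, ?_, hn⟩,
      Or.inl ?_⟩
    · exact hJ.sem
    · dsimp only; omega
    · simp only [phi, wt, gg, ex, Nat.sub_zero]; omega
  · rcases PL with _ | ⟨y, PL⟩
    · simp at hs; omega
    · cases y with
      | tk =>
        change Good p u _ ⟨.sh ph b, role, false, ML, MR, V2, PL, Tk.tk :: PR, G, 0, C - 1, E + 1, 0,
          TF, T0, T1⟩
        simp only [List.count_cons_self] at hc
        refine Or.inr ⟨⟨rfl, t, ⟨hJ.f, hJ.g, hJ.pe, hJ.sem, hJ.hm, ?_, ?_, ?_⟩, rfl, rfl, hE, hn, ?_⟩,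
          Or.inl ?_⟩
        · have := hJ.hl
          simpa [tl] using this
        · simpa using hs
        · dsimp only; omega
        · intro h0; simp at h0
        · simp only [phi, wt, gg, ex]; omega
      | sp =>
        rcases ML with _ | ⟨a, ML⟩
        · simp at hs
        · simp only [List.length_cons, List.count_cons_self] at *
          have hE' : E ≤ ML.length := by omega
          have hsub : ML.length + 1 - (E + 1) = ML.length - E := by omega
          have hsem := hJ.sem
          rw [hsub] at hsem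
          change Good p u _ ⟨.sh ph b, role, false, ML, a :: MR, V2, PL, Tk.sp :: PR,
            if ph then G else Tk.tk :: G, 0, C, E, 0, TF, T0, T1⟩
          refine Or.inr ⟨⟨rfl, t, ⟨hJ.f, ?_, ?_, hsem, ?_, ?_, ?_, ?_⟩, rfl, rfl, hE', ?_, ?_⟩,
            Or.inl ?_⟩
          · intro hph
            obtain ⟨h1, h2⟩ := hJ.g hph
            refine ⟨?_, h2⟩
            subst hph
            simpa using h1
          · intro hph
            have := hJ.pe hph
            simp only [List.length_cons] at this
            dsimp only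
            omega
          · have := hJ.hm
            simpa using this
          · have := hJ.hl
            cases ph with
            | true => simpa [tl, rr] using this
            | false =>
              have hpe := hJ.pe rfl
              simp only [List.length_cons] at hpe
              have e1 : t.length - ML.length - per p t.length =
                (t.length - (ML.length + 1) - per p t.length) + 1 := by omega
              simp only [tl, rr, List.reverse_cons, Bool.false_eq_true, if_false,
                List.length_cons, List.append_assoc] at this ⊢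
              rw [e1, List.replicate_succ']
              have e2 := congrArg (· ++ [Tk.tk]) this
              simpa using e2
          · dsimp only; omega
          · simpa using hc
          · dsimp only; omega
          · intro _; rfl
          · simp only [phi, wt, gg, ex, hsub, List.length_cons]
            cases ph <;> simp <;> omega

end Pool.Agent.Helper38.RT
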