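import Pool.Agent.Helper38.RT.Steps

set_option autoImplicit false

namespace Pool.Agent.Helper38.RT

theorem tl_nil {x : Cf} (h : x.G = []) : tl true x = tl false x := by
  simp [tl, h]

theorem stp_rev0 (p u : List Bool) (ph : Bool) (x : Cf)
    (hx : x.md = .rev0 ph) (h : Inv p u x) : Good p u x (mic x) := by
  obtain ⟨md, role, acc, ML, MR, V2, PL, PR, G, K, C, E, Z, TF, T0, T1⟩ := x
  subst hx
  obtain ⟨ha, t, hJ, hE, hZ, hK, hK1, hn⟩ := h
  dsimp only at ha hZ hK hK1 hE hn hJ
  subst ha hZ hE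
  rcases G with _ | ⟨g, G⟩
  · change Good p u _ ⟨.pact ph, role, false, ML, MR, V2, PL, PR, [], K, _, _, 0, TF, T0, T1⟩
    refine Or.inr ⟨⟨rfl, t, ⟨hJ.f, hJ.g, hJ.pe, hJ.sem, hJ.hm, ?_, hJ.hs, hJ.hc⟩, rfl, rfl, hK, hK1,
      hn⟩, Or.inl ?_⟩
    · have := hJ.hl
      rw [tl_nil rfl] at this
      exact this
    · simp only [phi, wt, gg, ex]; cases ph <;> simp
  · change Good p u _ ⟨.rev0 ph, role, false, ML, MR, V2, PL, g :: PR, G, K, _, _, 0, TF, T0, T1⟩
    refine Or.inr ⟨⟨rfl, t, ⟨hJ.f, ?_, hJ.pe, hJ.sem, hJ.hm, ?_, hJ.hs, hJ.hc⟩, rfl, rfl, hK, hK1,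
      hn⟩, Or.inl ?_⟩
    · intro hph
      exact absurd (hJ.g hph).1 (by simp)
    · have := hJ.hl
      simpa [tl] using this
    · simp only [phi, wt, ex, List.length_cons]; omega

theorem stp_rev1 {b : Bool} (p u : List Bool) (ph : Bool) (x : Cf)
    (hx : x.md = .rev1 ph b) (h : Inv p u x) : Good p u x (mic x) := by
  obtain ⟨md, role, acc, ML, MR, V2, PL, PR, G, K, C, E, Z, TF, T0, T1⟩ := x
  subst hx
  obtain ⟨ha, t, hJ, hE, hZ, hq, hn⟩ := h
  dsimp only at ha hZ hE hq hn hJ
  subst ha hZ hE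
  rcases G with _ | ⟨g, G⟩
  · change Good p u _ ⟨.wait ph b, role, false, ML, MR, V2, PL, PR, [], K, _, _, 0, TF, T0, T1⟩
    refine Or.inr ⟨⟨rfl, t, ⟨hJ.f, hJ.g, hJ.pe, hJ.sem, hJ.hm, ?_, hJ.hs, hJ.hc⟩, rfl, rfl, hq,
      hn⟩, Or.inl ?_⟩
    · have := hJ.hl
      rw [tl_nil rfl] at this
      exact this
    · simp only [phi, wt, gg, ex, wp]; cases ph <;> simp
  · change Good p u _ ⟨.rev1 ph b, role, false, ML, MR, V2, PL, g :: PR, G, K, _, _, 0, TF, T0, T1⟩
    refine Or.inr ⟨⟨rfl, t, ⟨hJ.f, ?_, hJ.pe, hJ.sem, hJ.hm, ?_, hJ.hs, hJ.hc⟩, rfl, rfl, hq,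
      hn⟩, Or.inl ?_⟩
    · intro hph
      exact absurd (hJ.g hph).1 (by simp)
    · have := hJ.hl
      simpa [tl] using this
    · simp only [phi, wt, ex, wp, List.length_cons]; omega

theorem stp_wait (W : S_WORDS) {b : Bool} (p u : List Bool) (ph : Bool) (x : Cf)
    (hx : x.md = .wait ph b) (h : Inv p u x) : Good p u x (mic x) := by
  obtain ⟨md, role, acc, ML, MR, V2, PL, PR, G, K, C, E, Z, TF, T0, T1⟩ := x
  subst hx
  obtain ⟨ha, t, hJ, hE, hZ, hq, hn⟩ := h
  dsimp only at ha hZ hE hq hn hJ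
  subst ha hZ hE
  have hc := hJ.hc
  have hs := hJ.hs
  have hpos := hJ.pos W (by dsimp only at hs ⊢; omega)
  dsimp only at hc hs hpos
  rcases PR with _ | ⟨y, PR⟩
  · rcases G with _ | ⟨g, G⟩
    · exact absurd (by simp [tl]) hpos.1
    · change Good p u _ ⟨.rev1 ph b, role, false, ML, MR, V2, PL, [], g :: G, K, _, _, 0, TF, T0, T1⟩
      refine Or.inr ⟨⟨rfl, t, ⟨hJ.f, hJ.g, hJ.pe, hJ.sem, hJ.hm, ?_, hJ.hs, hJ.hc⟩, rfl, rfl, hq,
        hn⟩, Or.inl ?_⟩
      · have := hJ.hl
        simpa [tl] using this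
      · cases ph with
        | true => exact absurd (hJ.g rfl).1 (by simp)
        | false =>
          simp only [phi, wt, gg, ex, wp, List.length_cons, Bool.false_eq_true, if_false]
          omega
  · cases y with
    | tk =>
      change Good p u _ ⟨.wait ph b, role, false, ML, MR, V2, Tk.tk :: PL, PR, G, K, _ + 1, _ + 1, 0,
        TF, T0, T1⟩
      have hJ' : J p u ph false ⟨.wait ph b, role, false, ML, MR, V2, Tk.tk :: PL, PR, G, K, E + 1,
          E + 1, 0, TF, T0, T1⟩ t (some b) (ML.length - per p ML.length) (t ++ [b]) (E + 1) := by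
        refine ⟨hJ.f, hJ.g, hJ.pe, hJ.sem, hJ.hm, ?_, ?_, ?_⟩
        · have := hJ.hl
          simpa [tl] using this
        · simpa using hs
        · simpa using hc
      have h2 := hJ'.cle W (by simp; omega)
      dsimp only at h2
      refine Or.inr ⟨⟨rfl, t, hJ', rfl, rfl, hq, hn⟩, Or.inl ?_⟩
      simp only [phi, wt, gg, ex, wp]; omega
    | sp =>
      rcases K with _ | K
      · have h3 := hpos.2.2 (by simp [tl])
        rw [show List.count Tk.sp PL = ML.length by omega] at h3
        have h4 := W.per_le p ML.length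
        subst h3
        change Good p u _ ⟨.sh ph b, role, false, ML, MR, V2, PL, Tk.sp :: PR, G, 0, _, _, 0,
          TF, T0, T1⟩
        refine Or.inr ⟨⟨rfl, t, ⟨hJ.f, hJ.g, hJ.pe, hJ.sem, hJ.hm, hJ.hl, hJ.hs, hJ.hc⟩, rfl, rfl,
          h4, hn, fun _ => rfl⟩, Or.inl ?_⟩
        simp only [phi, wt, gg, ex, wp]; omega
      · change Good p u _ ⟨.wait ph b, role, false, ML, MR, V2, Tk.sp :: PL, PR, G, K, _, _, 0,
          TF, T0, T1⟩
        refine Or.inr ⟨⟨rfl, t, ⟨hJ.f, hJ.g, hJ.pe, hJ.sem, hJ.hm, ?_, ?_, ?_⟩, rfl, rfl, hq, hn⟩,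
          Or.inl ?_⟩
        · have := hJ.hl
          simpa [tl] using this
        · simp only [List.count_cons_self]; omega
        · simpa using hc
        · simp only [phi, wt, gg, ex, wp]; omega

theorem stp_pact (W : S_WORDS) (p u : List Bool) (ph : Bool) (x : Cf)
    (hx : x.md = .pact ph) (h : Inv p u x) : Good p u x (mic x) := by
  obtain ⟨md, role, acc, ML, MR, V2, PL, PR, G, K, C, E, Z, TF, T0, T1⟩ := x
  subst hx
  obtain ⟨ha, t, hJ, hE, hZ, hK, hK1, hn⟩ := h
  dsimp only at ha hZ hK hK1 hE hn hJ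
  subst ha hZ hE
  have hc := hJ.hc
  have hs := hJ.hs
  have hpos := hJ.pos W (by dsimp only at hs ⊢; omega)
  dsimp only at hc hs hpos
  by_cases hacc : ph = true ∧ MR = []
  · obtain ⟨rfl, rfl⟩ := hacc
    left
    have hocc : Occ p u := by
      have hm := hJ.hm
      simp only [List.append_nil] at hm
      have hl : ML.length = p.length := by rw [← hm]; simp
      have h1 := hJ.sem.le
      have h2 := hJ.sem.co
      rw [hl] at h1 h2
      obtain ⟨u₁, hu⟩ := W.full p t (by simpa [bb] using h1) h2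
      exact ⟨u₁, _, by rw [(hJ.g rfl).2, hu]⟩
    refine ⟨?_, hocc⟩
    rcases PR with _ | ⟨y, PR⟩
    · rcases G with _ | ⟨g, G⟩ <;> exact ⟨rfl, by simp [mic, pstep], by simp [mic, pstep]⟩
    · rcases y <;> rcases K with _ | K <;> exact ⟨rfl, by simp [mic, pstep], by simp [mic, pstep]⟩
  · have hacc' : (ph && MR.isEmpty) = false := by
      cases ph with
      | false => rfl
      | true =>
        rcases MR with _ | ⟨y, MR⟩
        · simp at hacc
        · rfl
    have hlt : ML.length < nn ph p t := by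
      cases ph with
      | false =>
        have := hJ.sem.le
        simp only [bb, nn] at this ⊢
        simpa using this
      | true =>
        rcases MR with _ | ⟨y, MR⟩
        · simp at hacc
        · have := congrArg List.length hJ.hm
          simp only [List.length_append, List.length_reverse, List.length_cons] at this
          simp only [nn, if_true]
          omega
    have hmic : mic ⟨.pact ph, role, false, ML, MR, V2, PL, PR, G, K, E, E, 0, TF, T0, T1⟩ =
        pstep (.idle ph) (.idle ph) (.rev0 ph) ⟨.pact ph, role, false, ML, MR, V2, PL, PR, G, K, E, E,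
          0, TF, T0, T1⟩ := by
      simp only [mic, hacc', Bool.or_false]
    rw [hmic]
    rcases PR with _ | ⟨y, PR⟩
    · rcases G with _ | ⟨g, G⟩
      · exact absurd (by simp [tl]) hpos.1
      · change Good p u _ ⟨.rev0 ph, role, false, ML, MR, V2, PL, [], g :: G, K, _, _, 0, TF, T0, T1⟩
        refine Or.inr ⟨⟨rfl, t, ⟨hJ.f, hJ.g, hJ.pe, hJ.sem, hJ.hm, ?_, hJ.hs, hJ.hc⟩, rfl, rfl, hK,
          hK1, hn⟩, Or.inl ?_⟩
        · have := hJ.hl
          simpa [tl] using this
        · cases ph with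
          | true => exact absurd (hJ.g rfl).1 (by simp)
          | false =>
            simp only [phi, wt, gg, ex, List.length_cons, Bool.false_eq_true, if_false]
            omega
    · cases y with
      | tk =>
        change Good p u _ ⟨.idle ph, role, false, ML, MR, V2, Tk.tk :: PL, PR, G, K, _ + 1, _ + 1, 0,
          TF, T0, T1⟩
        refine Or.inr ⟨⟨rfl, t, ⟨hJ.f, hJ.g, hJ.pe, hJ.sem, hJ.hm, ?_, ?_, ?_⟩, rfl, rfl, hK, hlt⟩,
          Or.inl ?_⟩
        · have := hJ.hl
          simpa [tl] using this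
        · simpa using hs
        · simpa using hc
        · simp only [phi, wt, gg, ex]; omega
      | sp =>
        rcases K with _ | K
        · omega
        · change Good p u _ ⟨.idle ph, role, false, ML, MR, V2, Tk.sp :: PL, PR, G, K, _, _, 0,
            TF, T0, T1⟩
          refine Or.inr ⟨⟨rfl, t, ⟨hJ.f, hJ.g, hJ.pe, hJ.sem, hJ.hm, ?_, ?_, ?_⟩, rfl, rfl, ?_, hlt⟩,
            Or.inl ?_⟩
          · have := hJ.hl
            simpa [tl] using this
          · simp only [List.count_cons_self]; omega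
          · simpa using hc
          · dsimp only; omega
          · simp only [phi, wt, gg, ex]; omega

end Pool.Agent.Helper38.RT
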