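import Pool.Agent.Helper38.RT.Steps2

set_option autoImplicit false

namespace Pool.Agent.Helper38.RT

theorem take_succ_of {p t V : List Bool} {b : Bool} (ht : t = p.take t.length)
    (hd : p.drop t.length = b :: V) : t ++ [b] = p.take (t ++ [b]).length ∧
      p.drop (t ++ [b]).length = V ∧ (t ++ [b]).length ≤ p.length := by
  have h1 : p = t ++ (b :: V) := by
    conv_lhs => rw [← List.take_append_drop t.length p]
    rw [hd, ← ht]
  subst h1
  refine ⟨?_, ?_, ?_⟩
  · rw [show t ++ b :: V = (t ++ [b]) ++ V by simp]
    rw [List.take_left]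
  · rw [show t ++ b :: V = (t ++ [b]) ++ V by simp]
    rw [List.drop_left]
  · simp

theorem TT_succ (p : List Bool) (n : ℕ) :
    TT p (n + 1) = TT p n ++ Tk.sp :: List.replicate (per p (n + 1) - per p n) Tk.tk := rfl

/-- match -/
theorem sem_match (W : S_WORDS) {p t : List Bool} {b : Bool} {b0 q : ℕ}
    (h : Sem p t (t ++ [b]) b0 q) (hq : p[q]? = some b) :
    Sem p (t ++ [b]) (t ++ [b]) b0 (q + 1) := by
  have h1 := h.le
  refine ⟨by simp; omega, ?_, ?_⟩
  · have := W.mtch p t b q (by omega) hq h.co
    simpa [show t.length + 1 - (q + 1) = t.length - q by omega] using this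
  · intro s h0 h2
    refine h.no s h0 ?_
    simpa [show t.length + 1 - (q + 1) = t.length - q by omega] using h2

/-- mismatch at the beginning -/
theorem sem_zero (W : S_WORDS) {p t : List Bool} {b : Bool} {b0 : ℕ}
    (h : Sem p t (t ++ [b]) b0 0) (hp : 0 < p.length) (hb : b0 ≤ 1) (hq : p[0]? ≠ some b) :
    Sem p (t ++ [b]) (t ++ [b]) b0 0 := by
  refine ⟨by simp; omega, compat_len _ _ (by simp), ?_⟩
  intro s h0 h2
  simp only [List.length_append, List.length_singleton, Nat.sub_zero] at h2
  rcases Nat.lt_or_ge s t.length with h3 | h3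
  · exact h.no s h0 (by simpa using h3)
  · have := W.mism p t b 0 (Nat.zero_le _) hp hq
    rw [show s = t.length - 0 by omega]
    exact this

/-- mismatch: shift -/
theorem sem_shift (W : S_WORDS) {p t : List Bool} {b : Bool} {b0 q : ℕ}
    (h : Sem p t (t ++ [b]) b0 q) (h0 : 0 < q) (hp : q < p.length) (hq : p[q]? ≠ some b) :
    Sem p t (t ++ [b]) b0 (q - per p q) := by
  have h1 := h.le
  have h2 := W.per_le p q
  refine ⟨by omega, W.shift p t q h0 (by omega) hp.le h.co, ?_⟩
  intro s h3 h4
  rcases Nat.lt_trichotomy s (t.length - q) with h5 | h5 | h5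
  · exact h.no s h3 h5
  · rw [h5]
    exact W.mism p t b q (by omega) hp hq
  · intro h6
    exact W.gap p t q s h0 (by omega) hp.le h.co h5 (by omega) (W.mono p t b s h6)

theorem stp_cmp (W : S_WORDS) {b : Bool} (p u : List Bool) (ph : Bool) (x : Cf)
    (hx : x.md = .cmp ph b) (h : Inv p u x) : Good p u x (mic x) := by
  obtain ⟨md, role, acc, ML, MR, V2, PL, PR, G, K, C, E, Z, TF, T0, T1⟩ := x
  subst hx
  obtain ⟨ha, t, hJ, hE, hZ, hK, hn⟩ := h
  dsimp only at ha hZ hK hE hn hJ
  subst ha hZ hE
  have hc := hJ.hc
  have hs := hJ.hs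
  have hm := hJ.hm
  have hnn := hJ.nnlen
  have hcle := hJ.cle W (by dsimp only at hs ⊢; omega)
  dsimp only at hc hs hm hcle
  have hlm : ML.length < p.length := by omega
  have hsem := hJ.sem
  have hget : p[ML.length]? = MR.head? := by
    rw [← hm, List.getElem?_append_right (by simp)]
    simp [List.head?_eq_getElem?]
  have hMR : MR ≠ [] := by
    rintro rfl
    have := congrArg List.length hm
    simp at this
    omega
  rcases MR with _ | ⟨y, MR⟩
  · exact absurd rfl hMR
  simp only [List.head?_cons] at hget
  by_cases hy : y = b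
  · subst hy
    have hmic : mic ⟨.cmp ph y, role, false, ML, y :: MR, V2, PL, PR, G, K, E, E, 0, TF, T0, T1⟩ =
        ⟨.pact ph, role, false, y :: ML, MR, V2, PL, PR, G, K + 1, E, E, 0, TF, T0, T1⟩ := by
      simp [mic]
    rw [hmic]
    have hsem' := sem_match W hsem hget
    have key : ph = false → per p (t ++ [y]).length = (t ++ [y]).length - (ML.length + 1) := by
      intro hph
      obtain ⟨f1, f2, f3, f4⟩ := hJ.f hph
      obtain ⟨g1, g2, g3⟩ := take_succ_of f2 f3
      subst hph
      exact per_of_sem W hsem' g1 g3
    refine Or.inr ⟨⟨rfl, t ++ [y], ⟨?_, ?_, ?_, hsem', ?_, ?_, ?_, hJ.hc⟩, rfl, rfl, ?_, ?_, ?_⟩,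
      Or.inl ?_⟩
    · intro hph
      obtain ⟨f1, f2, f3, f4⟩ := hJ.f hph
      obtain ⟨g1, g2, g3⟩ := take_succ_of f2 f3
      exact ⟨by simp, g1, g2, f4⟩
    · intro hph
      obtain ⟨g1, g2⟩ := hJ.g hph
      refine ⟨g1, ?_⟩
      rw [g2]
      simp [pend]
    · intro hph
      rw [key hph]
      simp only [List.length_append, List.length_cons, List.length_nil]
      have := hsem.le
      omega
    · dsimp only
      rw [← hm]
      simp
    · have := hJ.hl
      cases ph with
      | true => simpa [tl, rr, nn] using this
      | false =>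
        have k := key rfl
        simp only [List.length_append, List.length_cons, List.length_nil, Nat.zero_add] at k
        simp only [tl, rr, nn, Bool.false_eq_true, if_false, List.length_append,
          List.length_cons, List.length_nil, Nat.zero_add, List.append_nil, TT_succ] at this ⊢
        rw [this, k, show t.length + 1 - (ML.length + 1) = t.length - ML.length by omega]
    · dsimp only [List.length_cons]; omega
    · dsimp only; omega
    · dsimp only; omega
    · dsimp only [List.length_cons]
      cases ph with
      | true => simp only [nn, if_true]; omega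
      | false =>
        simp only [nn, Bool.false_eq_true, if_false, List.length_append, List.length_cons,
          List.length_nil] at hn ⊢
        omega
    · simp only [phi, wt, gg, ex, List.length_cons]; omega
  · have hq : p[ML.length]? ≠ some b := by
      rw [hget]
      simpa using hy
    rcases ML with _ | ⟨a, ML⟩
    · have hmic : mic ⟨.cmp ph b, role, false, [], y :: MR, V2, PL, PR, G, K, E, E, 0, TF, T0, T1⟩ =
          ⟨.idle ph, role, false, [], y :: MR, V2, PL, PR, if ph then G else Tk.tk :: G, K, E, E, 0,
            TF, T0, T1⟩ := by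
        simp [mic, hy]
      rw [hmic]
      have hb0 : bb ph ≤ 1 := by cases ph <;> simp [bb]
      have hsem' := sem_zero W hsem (by simpa using hlm) hb0 hq
      have key : ph = false → per p (t ++ [b]).length = (t ++ [b]).length - 0 := by
        intro hph
        obtain ⟨f1, f2, f3, f4⟩ := hJ.f hph
        obtain ⟨g1, g2, g3⟩ := take_succ_of f2 f3
        subst hph
        exact per_of_sem W hsem' g1 g3
      refine Or.inr ⟨⟨rfl, t ++ [b], ⟨?_, ?_, ?_, hsem', hJ.hm, ?_, hJ.hs, hJ.hc⟩, rfl, rfl, hK,
        ?_⟩, Or.inl ?_⟩
      · intro hph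
        obtain ⟨f1, f2, f3, f4⟩ := hJ.f hph
        obtain ⟨g1, g2, g3⟩ := take_succ_of f2 f3
        exact ⟨by simp, g1, g2, f4⟩
      · intro hph
        obtain ⟨g1, g2⟩ := hJ.g hph
        subst hph
        refine ⟨by simpa using g1, ?_⟩
        rw [g2]
        simp [pend]
      · intro hph
        rw [key hph]
        simp
      · have := hJ.hl
        cases ph with
        | true => simpa [tl, rr, nn] using this
        | false =>
          have k := key rfl
          have hpe := hJ.pe rfl
          simp only [List.length_append, List.length_cons, List.length_nil, Nat.zero_add,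
            Nat.sub_zero, Nat.add_zero] at k hpe
          simp only [tl, rr, nn, Bool.false_eq_true, if_false, List.length_append,
            List.length_cons, List.length_nil, Nat.zero_add, List.append_nil, TT_succ,
            List.reverse_cons, Nat.sub_zero] at this ⊢
          rw [k, show t.length + 1 - per p t.length = (t.length - per p t.length) + 1 by omega,
            List.replicate_succ']
          have e2 := congrArg (· ++ [Tk.tk]) this
          simpa using e2
      · dsimp only [List.length_nil]
        cases ph with
        | true => simp only [nn, if_true]; simpa using hlm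
        | false => simp [nn]
      · simp only [phi, wt, gg, ex]
        cases ph <;> simp
        omega
    · have hmic : mic ⟨.cmp ph b, role, false, a :: ML, y :: MR, V2, PL, PR, G, K, E, E, 0, TF, T0,
          T1⟩ =
          ⟨.wait ph b, role, false, a :: ML, y :: MR, V2, PL, PR, G, K, E, E, 0,
            TF, T0, T1⟩ := by
        simp [mic, hy]
      rw [hmic]
      have hsem' := sem_shift W hsem (by simp) (by simpa using hlm) hq
      refine Or.inr ⟨⟨rfl, t, ⟨hJ.f, hJ.g, hJ.pe, hsem', hJ.hm, hJ.hl, hJ.hs, hJ.hc⟩, rfl, rfl,
        by simp, hn⟩, Or.inl ?_⟩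
      have h1 := W.per_le p (a :: ML).length
      have h2 := W.per_mono p ((a :: ML).length - per p (a :: ML).length) (a :: ML).length (by omega)
      have h3 := W.per_pos p (a :: ML).length (by simp)
      simp only [phi, wt, gg, ex, wp]
      omega

end Pool.Agent.Helper38.RT
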