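import Pool.Agent.Helper38.RT.Steps3

set_option autoImplicit false

namespace Pool.Agent.Helper38.RT

theorem stp_idle_false (W : S_WORDS) (p u : List Bool) (x : Cf)
    (hx : x.md = .idle false) (h : Inv p u x) : Good p u x (mic x) := by
  obtain ⟨md, role, acc, ML, MR, V2, PL, PR, G, K, C, E, Z, TF, T0, T1⟩ := x
  subst hx
  obtain ⟨ha, t, hJ, hE, hZ, hK, hn⟩ := h
  dsimp only at ha hZ hK hE hn hJ
  subst ha hZ hE
  have hc := hJ.hc
  have hs := hJ.hs
  have hm := hJ.hm
  have hl := hJ.hl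
  have hnn := hJ.nnlen
  have hcle := (hJ.pos W (by dsimp only at hs ⊢; omega)).2.1
  have hsem := hJ.sem
  obtain ⟨f1, f2, f3, f4⟩ := hJ.f rfl
  have hps := per_of_sem W hsem f2 (by simpa [nn] using hnn)
  dsimp only at hc hs hm hcle hl f3
  simp only [tl, rr, Bool.false_eq_true, if_false, List.append_nil, nn] at hl hn hnn
  rcases V2 with _ | ⟨b, V2⟩
  · change Good p u _ ⟨.lda, role, false, ML, MR, [], PL, PR, G, K, _, _, 0, TF, T0, T1⟩
    have htl : t.length = p.length := by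
      have := congrArg List.length f3
      simp at this
      omega
    rw [htl] at hl
    have h5 := congrArg List.length hl
    rw [W.len] at h5
    simp only [List.length_append, List.length_reverse] at h5
    have h6 := W.per_le p p.length
    have h7 := W.per_le p (List.count Tk.sp PL)
    refine Or.inr ⟨⟨rfl, hm, by simpa [tl] using hl, f4, rfl⟩, Or.inl ?_⟩
    simp only [phi, wt, gg, ex, xx, Bool.false_eq_true, if_false, List.length_nil]
    omega
  · change Good p u _ ⟨.cmp false b, role, false, ML, MR, V2, PL, PR, Tk.sp :: G, K, _, _, 0, TF,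
      T0, T1⟩
    refine Or.inr ⟨⟨rfl, t, ⟨?_, by simp, hJ.pe, ⟨hsem.le, hsem.co, ?_⟩, hJ.hm, ?_, hJ.hs, hJ.hc⟩,
      rfl, rfl, hK, by simpa [nn] using hn⟩, Or.inl ?_⟩
    · intro _
      exact ⟨f1, f2, by simpa using f3, f4⟩
    · intro s h0 h2 h3
      exact hsem.no s h0 h2 (W.mono _ _ _ _ h3)
    · simp only [tl, rr, Bool.false_eq_true, if_false, nn, List.reverse_cons]
      rw [hps]
      rw [Nat.sub_self, List.replicate_zero, ← hl]
      simp
    · simp only [phi, wt, gg, ex, Bool.false_eq_true, if_false, List.length_cons]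
      omega

theorem J.upd {p u t t' : List Bool} {rv : Bool} {x y : Cf} {ev : Option Bool}
    {qt c : ℕ} (h : J p u true rv x t ev qt t' c) (h1 : y.ML = x.ML) (h2 : y.MR = x.MR)
    (h3 : y.PL = x.PL) (h4 : y.PR = x.PR) (h5 : y.G = x.G) (h6 : y.K = x.K)
    (h7 : pend y = pend x) : J p u true rv y t ev qt t' c := by
  refine ⟨by simp, ?_, by simp, h.sem, ?_, ?_, ?_, ?_⟩
  · rw [h5, h7]; exact h.g
  · rw [h1, h2]; exact h.hm
  · have : tl rv y = tl rv x := by simp only [tl, h4, h5]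
    rw [h3, this, h1]; exact h.hl
  · rw [h3, h6, h1]; exact h.hs
  · rw [h3]; exact h.hc

theorem idle_ev (W : S_WORDS) {p u t : List Bool} {x y : Cf} {b : Bool}
    (hx : x.md = .idle true) (hy : y.md = .cmp true b) (hya : y.acc = false)
    (h : J p u true false x t none x.ML.length t x.C) (hE : x.E = x.C) (hZ : x.Z = 0)
    (hK : x.K ≤ x.C) (hn : x.ML.length < nn true p t)
    (h1 : y.ML = x.ML) (h2 : y.MR = x.MR)
    (h3 : y.PL = x.PL) (h4 : y.PR = x.PR) (h5 : y.G = x.G) (h6 : y.K = x.K)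
    (h7 : pend x = b :: pend y) (h8 : y.C = x.C) (h9 : y.E = x.E) (h10 : y.Z = x.Z)
    (h11 : wt y + 15 = wt x) : Good p u x y := by
  obtain ⟨md, role, acc, ML, MR, V2, PL, PR, G, K, C, E, Z, TF, T0, T1⟩ := y
  dsimp only at *
  subst h1 h2 h3 h4 h5 h6 h8 h9 h10 hya hy
  refine Or.inr ⟨⟨rfl, t, ⟨by simp, ?_, by simp, ⟨h.sem.le, h.sem.co, ?_⟩, h.hm, h.hl, h.hs, h.hc⟩,
    hE, hZ, hK, hn⟩, Or.inl ?_⟩
  · intro _
    have := h.g rfl
    refine ⟨this.1, ?_⟩
    have h12 := this.2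
    rw [h7] at h12
    simpa using h12
  · intro s h0 h2 h3
    exact h.sem.no s h0 h2 (W.mono _ _ _ _ h3)
  · simp only [phi, hx, gg, ex, if_true]
    omega

theorem idle_stay {p u t : List Bool} {x y : Cf}
    (hx : x.md = .idle true) (hy : y.md = .idle true) (hya : y.acc = false)
    (h : J p u true false x t none x.ML.length t x.C) (hE : x.E = x.C) (hZ : x.Z = 0)
    (hK : x.K ≤ x.C) (hn : x.ML.length < nn true p t)
    (h1 : y.ML = x.ML) (h2 : y.MR = x.MR)
    (h3 : y.PL = x.PL) (h4 : y.PR = x.PR) (h5 : y.G = x.G) (h6 : y.K = x.K)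
    (h7 : pend y = pend x) (h8 : y.C = x.C) (h9 : y.E = x.E) (h10 : y.Z = x.Z)
    (h11 : wt y + 1 ≤ wt x) : Good p u x y := by
  have h' := h.upd h1 h2 h3 h4 h5 h6 h7
  rw [← h1, ← h8] at h'
  have hmi : MI p u y := by
    simp only [MI, hy]
    exact ⟨t, h', by omega, by omega, by omega, by rw [h1]; exact hn⟩
  refine Or.inr ⟨⟨hya, hmi⟩, Or.inl ?_⟩
  simp only [phi, hx, hy, gg, ex, if_true, h1]
  omega

theorem stp_idle_true (W : S_WORDS) (p u : List Bool) (x : Cf)
    (hx : x.md = .idle true) (h : Inv p u x) : Good p u x (mic x) := by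
  obtain ⟨md, role, acc, ML, MR, V2, PL, PR, G, K, C, E, Z, TF, T0, T1⟩ := x
  subst hx
  obtain ⟨ha, t, hJ, hE, hZ, hK, hn⟩ := h
  dsimp only at ha
  subst ha
  cases role with
  | false =>
    rcases T0 with _ | ⟨b, T0⟩
    · rcases TF with _ | ⟨b, TF⟩
      · rcases T1 with _ | ⟨b, T1⟩
        · refine Or.inr ⟨⟨rfl, t, hJ, hE, hZ, hK, hn⟩, Or.inr ?_⟩
          simp only [mic, phi, wt, gg, ex, if_true, List.length_nil, nn] at hn ⊢
          simp
          omega
        · refine idle_stay rfl rfl rfl hJ hE hZ hK hn rfl rfl rfl rfl rfl rfl ?_ rfl rfl rfl ?_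
          · simp [mic, pend]
          · simp [mic, wt]
      · refine idle_ev W (b := b) rfl rfl rfl hJ hE hZ hK hn rfl rfl rfl rfl rfl rfl ?_ rfl rfl rfl ?_
        · simp [mic, pend]
        · simp [mic, wt]
          omega
    · refine idle_stay rfl rfl rfl hJ hE hZ hK hn rfl rfl rfl rfl rfl rfl ?_ rfl rfl rfl ?_
      · simp [mic, pend]
      · simp [mic, wt]
        omega
  | true =>
    rcases T1 with _ | ⟨b, T1⟩
    · rcases TF with _ | ⟨b, TF⟩
      · rcases T0 with _ | ⟨b, T0⟩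
        · refine Or.inr ⟨⟨rfl, t, hJ, hE, hZ, hK, hn⟩, Or.inr ?_⟩
          simp only [mic, phi, wt, gg, ex, if_true, List.length_nil, nn] at hn ⊢
          simp
          omega
        · refine idle_stay rfl rfl rfl hJ hE hZ hK hn rfl rfl rfl rfl rfl rfl ?_ rfl rfl rfl ?_
          · simp [mic, pend]
          · simp [mic, wt]
      · refine idle_ev W (b := b) rfl rfl rfl hJ hE hZ hK hn rfl rfl rfl rfl rfl rfl ?_ rfl rfl rfl ?_
        · simp [mic, pend]
        · simp [mic, wt]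
          omega
    · refine idle_stay rfl rfl rfl hJ hE hZ hK hn rfl rfl rfl rfl rfl rfl ?_ rfl rfl rfl ?_
      · simp [mic, pend]
      · simp [mic, wt]
        omega

theorem stp_lda (p u : List Bool) (x : Cf)
    (hx : x.md = .lda) (h : Inv p u x) : Good p u x (mic x) := by
  obtain ⟨md, role, acc, ML, MR, V2, PL, PR, G, K, C, E, Z, TF, T0, T1⟩ := x
  subst hx
  obtain ⟨ha, hm, hl, hp, hZ⟩ := h
  dsimp only at ha hm hl hZ
  subst ha hZ
  rcases PR with _ | ⟨y, PR⟩
  · rcases G with _ | ⟨g, G⟩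
    · change Good p u _ ⟨.ldc, role, false, ML, MR, V2, PL, [], [], K, C, E, 0, TF, T0, T1⟩
      refine Or.inr ⟨⟨rfl, hm, by simpa [tl] using hl, hp, rfl, rfl⟩, Or.inl ?_⟩
      simp only [phi, wt, xx, List.length_nil]; omega
    · change Good p u _ ⟨.ldb, role, false, ML, MR, V2, PL, [], g :: G, K, C, E, 0, TF, T0, T1⟩
      refine Or.inr ⟨⟨rfl, hm, by simpa [tl] using hl, hp, rfl⟩, Or.inl ?_⟩
      simp only [phi, wt, xx, List.length_nil, List.length_cons]; omega
  · change Good p u _ ⟨.lda, role, false, ML, MR, V2, y :: PL, PR, G, K, C, E, 0, TF, T0, T1⟩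
    refine Or.inr ⟨⟨rfl, hm, by simpa [tl] using hl, hp, rfl⟩, Or.inl ?_⟩
    simp only [phi, wt, xx, List.length_cons]; omega

theorem stp_ldb (p u : List Bool) (x : Cf)
    (hx : x.md = .ldb) (h : Inv p u x) : Good p u x (mic x) := by
  obtain ⟨md, role, acc, ML, MR, V2, PL, PR, G, K, C, E, Z, TF, T0, T1⟩ := x
  subst hx
  obtain ⟨ha, hm, hl, hp, hZ⟩ := h
  dsimp only at ha hm hl hZ
  subst ha hZ
  rcases G with _ | ⟨g, G⟩
  · change Good p u _ ⟨.lda, role, false, ML, MR, V2, PL, PR, [], K, C, E, 0, TF, T0, T1⟩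
    refine Or.inr ⟨⟨rfl, hm, by simpa [tl] using hl, hp, rfl⟩, Or.inl ?_⟩
    simp only [phi, wt, xx, List.length_nil]; omega
  · change Good p u _ ⟨.ldb, role, false, ML, MR, V2, PL, g :: PR, G, K, C, E, 0, TF, T0, T1⟩
    refine Or.inr ⟨⟨rfl, hm, by simpa [tl] using hl, hp, rfl⟩, Or.inl ?_⟩
    simp only [phi, wt, xx, List.length_cons]; omega

theorem stp_ldc (p u : List Bool) (hp0 : 0 < p.length) (x : Cf)
    (hx : x.md = .ldc) (h : Inv p u x) : Good p u x (mic x) := by
  obtain ⟨md, role, acc, ML, MR, V2, PL, PR, G, K, C, E, Z, TF, T0, T1⟩ := x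
  subst hx
  obtain ⟨ha, hm, hl, hp, hZ, hG⟩ := h
  dsimp only at ha hm hl hZ hG
  subst ha hZ hG
  by_cases hc : PL = [] ∧ C = 0 ∧ E = 0 ∧ K = 0 ∧ ML = []
  · obtain ⟨rfl, rfl, rfl, rfl, rfl⟩ := hc
    have hmic : mic ⟨.ldc, role, false, [], MR, V2, [], PR, [], 0, 0, 0, 0, TF, T0, T1⟩ =
        ⟨.idle true, role, false, [], MR, V2, [], PR, [], 0, 0, 0, 0, TF, T0, T1⟩ := by
      simp [mic]
    rw [hmic]
    refine Or.inr ⟨⟨rfl, [], ⟨by simp, ?_, by simp, ⟨by simp [bb], compat_len _ _ (by simp),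
      by simp⟩, hm, ?_, by simp, by simp⟩, rfl, rfl, le_rfl, ?_⟩, Or.inl ?_⟩
    · intro _
      exact ⟨rfl, hp.symm⟩
    · simpa [tl, rr, nn] using hl
    · simpa [nn] using hp0
    · simp [phi, wt, xx, gg, ex]
  · have hmic : mic ⟨.ldc, role, false, ML, MR, V2, PL, PR, [], K, C, E, 0, TF, T0, T1⟩ =
        ⟨.ldc, role, false, ML.tail, ML.head?.toList ++ MR, V2, PL.tail, PL.head?.toList ++ PR, [],
          K - 1, C - 1, E - 1, 0, TF, T0, T1⟩ := by
      simp only [mic, if_neg hc]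
    rw [hmic]
    refine Or.inr ⟨⟨rfl, ?_, ?_, hp, rfl, rfl⟩, Or.inl ?_⟩
    · cases ML with
      | nil => simpa using hm
      | cons a ML => simpa using hm
    · cases PL with
      | nil => simpa using hl
      | cons a ML => simpa using hl
    · have : 0 < PL.length ∨ 0 < C ∨ 0 < E ∨ 0 < K ∨ 0 < ML.length := by
        by_contra hcon
        push Not at hcon
        apply hc
        refine ⟨List.length_eq_zero_iff.1 (by omega), by omega, by omega, by omega,
          List.length_eq_zero_iff.1 (by omega)⟩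
      simp only [phi, wt, xx, List.length_tail]
      omega

end Pool.Agent.Helper38.RT
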